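import Pool.Agent.ASO.Stmts3
import Pool.Agent.Helper66_K9.Asm

/-!
# Row LAC of the squad ASO: integrality of the total sum
-/

open scoped BigOperators

noncomputable section

namespace Pool.Agent.PP.SO.H10L

open Pool.Agent.Helper51_AWC Pool.Agent.Helper79_WRA Pool.Agent.PP Pool.Agent.PP.KF
open Pool.Agent.PP.K9 Pool.Agent.PP.K9.H97 Pool.Agent.PP.H75 Pool.Agent.PP.T3
open Pool.Agent.PP.SO

attribute [local instance] Ideal.Quotient.field

/-! ### sums over classes -/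

/-- the sum of an invariant function -/
theorem osum {Γ X : Type} [Group Γ] [Finite Γ] [Fintype X] [MulAction Γ X] (R : Subring ℂ)
    (φ : X → ℂ) (hinv : ∀ (γ : Γ) x, φ (γ • x) = φ x)
    (hR : ∀ x, (Nat.card (MulAction.orbit Γ x) : ℂ) * φ x ∈ R) : ∑ x, φ x ∈ R := by
  classical
  have e := Finset.sum_partition (s := Finset.univ) (f := φ) (MulAction.orbitRel Γ X)
  rw [e]
  apply Subring.sum_mem
  intro q hq
  rw [Finset.mem_image] at hq
  obtain ⟨x, -, rfl⟩ := hq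
  have h1 : ∀ y ∈ Finset.univ.filter (fun y => Quotient.mk (MulAction.orbitRel Γ X) y =
      Quotient.mk (MulAction.orbitRel Γ X) x), φ y = φ x := by
    intro y hy
    rw [Finset.mem_filter] at hy
    have h2 := Quotient.exact hy.2
    obtain ⟨γ, hγ⟩ := h2
    have h3 : γ • x = y := hγ
    rw [← h3, hinv]
  rw [Finset.sum_congr rfl h1, Finset.sum_const, nsmul_eq_mul]
  have h4 : (Finset.univ.filter (fun y => Quotient.mk (MulAction.orbitRel Γ X) y =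
      Quotient.mk (MulAction.orbitRel Γ X) x)).card = Nat.card (MulAction.orbit Γ x) := by
    rw [Nat.card_eq_fintype_card, ← Set.toFinset_card]
    congr 1
    ext y
    rw [Finset.mem_filter, Set.mem_toFinset]
    constructor
    · intro h
      exact Quotient.exact h.2
    · intro h
      exact ⟨Finset.mem_univ _, Quotient.sound h⟩
  rw [h4]
  exact hR x

/-- the group `G` with the conjugation of subgroups -/
def Cj (G : Type) : Type := G

/-- conjugation -/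
def cjf {G : Type} [Group G] (z s : G) : G := z * s * z⁻¹

theorem cjf_one {G : Type} [Group G] (s : G) : cjf 1 s = s := by simp [cjf]

theorem cjf_mul {G : Type} [Group G] (x y s : G) : cjf (x * y) s = cjf x (cjf y s) := by
  simp only [cjf]
  group

instance cjAct {G : Type} [Group G] (H : Subgroup G) : MulAction H (Cj G) where
  smul z s := cjf (G := G) z s
  one_smul s := cjf_one (G := G) s
  mul_smul x y s := cjf_mul (G := G) x y s

theorem csum {G : Type} [Group G] [Fintype G] (R : Subring ℂ) (H : Subgroup G) (φ : G → ℂ)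
    (hinv : ∀ z ∈ H, ∀ s, φ (z * s * z⁻¹) = φ s)
    (hR : ∀ s, (Nat.card H : ℂ) * φ s / Nat.card (H ⊓ Cu s : Subgroup G) ∈ R) :
    ∑ s, φ s ∈ R := by
  classical
  let iF : Fintype (Cj G) := (inferInstance : Fintype G)
  have h0 : ∑ s : Cj G, φ s ∈ R := by
    refine osum (Γ := H) (X := Cj G) R φ (fun γ x => ?_) (fun s => ?_)
    · exact hinv γ.1 γ.2 x
    have h1 := MulAction.card_orbit_mul_card_stabilizer_eq_card_group H s
    have h2 : Fintype.card (MulAction.stabilizer H s) = Nat.card (H ⊓ Cu (show G from s) :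
        Subgroup G) := by
      rw [← Nat.card_eq_fintype_card]
      refine Nat.card_congr ⟨fun z => ⟨z.1.1, z.1.2, ?_⟩, fun z => ⟨⟨z.1, z.2.1⟩, ?_⟩, ?_, ?_⟩
      · have h3 : (z.1 : G) * (show G from s) * (z.1 : G)⁻¹ = s := z.2
        show (z.1 : G) ∈ Cu (show G from s)
        rw [Subgroup.mem_centralizer_singleton_iff]
        exact mul_inv_eq_iff_eq_mul.1 h3
      · have h3 : z.1 ∈ Cu (show G from s) := z.2.2
        rw [Subgroup.mem_centralizer_singleton_iff] at h3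
        show (z.1 : G) * (show G from s) * (z.1 : G)⁻¹ = s
        exact mul_inv_eq_iff_eq_mul.2 h3
      · intro z
        rfl
      · intro z
        rfl
    rw [h2] at h1
    have h3 : (Nat.card (MulAction.orbit H s) : ℂ) * Nat.card (H ⊓ Cu (show G from s) :
        Subgroup G) = Nat.card H := by
      rw [Nat.card_eq_fintype_card (α := MulAction.orbit H s), Nat.card_eq_fintype_card (α := H),
        ← h1]
      push_cast
      ring
    have h4 : (Nat.card (H ⊓ Cu (show G from s) : Subgroup G) : ℂ) ≠ 0 := by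
      have h5 : 0 < Nat.card (H ⊓ Cu (show G from s) : Subgroup G) := Nat.card_pos
      exact_mod_cast h5.ne'
    have h5 := hR s
    have h6 : (Nat.card H : ℂ) * φ s / Nat.card (H ⊓ Cu (show G from s) : Subgroup G) =
        Nat.card (MulAction.orbit H s) * φ s := by
      rw [← h3]
      field_simp
    rw [h6] at h5
    exact h5
  exact h0

/-! ### the weights -/

section wts

variable {V₀ G : Type} [CommGroup V₀] [Group G] [Finite G] {M : Ideal (integralClosure ℤ ℂ)}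
  [M.IsMaximal]

omit [Finite G] in
theorem C_top (B : Bk (FF M) V₀ G) (W : Subgroup V₀) : B.C ⊤ ≤ B.C W := by
  unfold Bk.C
  exact Subgroup.centralizer_le (SetLike.coe_subset_coe.2 (Subgroup.map_mono le_top))

theorem bh_conj (B : Bk (FF M) V₀ G) (W : Subgroup V₀) (z : G) (hz : z ∈ B.C W) (s : G) :
    bh B W (z * s * z⁻¹) = bh B W s := by
  classical
  have := Fintype.ofFinite (B.C W)
  unfold bh PP.ext0
  by_cases hs : s ∈ B.C W
  · have h1 : z * s * z⁻¹ ∈ B.C W := (B.C W).mul_mem ((B.C W).mul_mem hz hs) ((B.C W).inv_mem hz)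
    rw [dif_pos h1, dif_pos hs]
    have h2 := K9.H25.eh_cl M (fun t : B.C W => B.b W t) ⟨s, hs⟩ ⟨z, hz⟩
    exact h2
  · have h1 : z * s * z⁻¹ ∉ B.C W := by
      intro h
      apply hs
      have h2 := (B.C W).mul_mem ((B.C W).mul_mem ((B.C W).inv_mem hz) h) hz
      have e : z⁻¹ * (z * s * z⁻¹) * z = s := by group
      rwa [e] at h2
    rw [dif_neg h1, dif_neg hs]

omit [Finite G] in
theorem bh_supp (B : Bk (FF M) V₀ G) (W : Subgroup V₀) (s : G) (hs : s ∉ B.C W) :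
    bh B W s = 0 := by
  unfold bh PP.ext0
  rw [dif_neg hs]

theorem bh_sing (ℓ : ℕ) [Fact ℓ.Prime] (hM : (ℓ : integralClosure ℤ ℂ) ∈ M)
    {E₀ : Subgroup (MulAut V₀)} {B : Bk (FF M) V₀ G} (hB : Sy ℓ M E₀ B) (W : Subgroup V₀) (s : G)
    (hs : ¬ Reg ℓ s) : bh B W s = 0 := by
  classical
  have := Fintype.ofFinite (B.C W)
  unfold bh PP.ext0
  by_cases h : s ∈ B.C W
  · rw [dif_pos h]
    refine K9.H25.eh_sing wbo_ ℓ M hM (fun t : B.C W => B.b W t) (hB.lb W).blk.blk.1 ⟨s, h⟩ ?_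
    intro h1
    apply hs
    have h2 : orderOf (⟨s, h⟩ : B.C W) = orderOf s := by
      rw [← Subgroup.orderOf_coe]
    have h3 : (orderOf (⟨s, h⟩ : B.C W)).Coprime ℓ := h1
    show (orderOf s).Coprime ℓ
    rw [← h2]
    exact h3
  · rw [dif_neg h]

theorem wt_conj (B : Bk (FF M) V₀ G) (c : V₀) (f : Bool) (z : G) (hz : z ∈ B.C (frm c f)) (s : G) :
    wt B c f (z * s * z⁻¹) = wt B c f s := by
  unfold wt
  cases f with
  | true =>
    have hz' : z ∈ B.C ⊤ := hz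
    simp only [if_true]
    rw [bh_conj B ⊤ z hz']
  | false =>
    have hz' : z ∈ B.C (Subgroup.zpowers c) := hz
    simp only [Bool.false_eq_true, if_false]
    rw [bh_conj B _ z hz']
    congr 3
    rw [← finsum_comp_equiv (Equiv.mulLeft (⟨z, hz'⟩ : B.C (Subgroup.zpowers c)))]
    apply finsum_congr
    intro y
    congr 1
    show ((z * (y : G) : G))⁻¹ * (z * s * z⁻¹) * (z * (y : G)) = _
    group

theorem wt_supp (B : Bk (FF M) V₀ G) (c : V₀) (f : Bool) (s : G) (hs : s ∉ B.C (frm c f)) :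
    wt B c f s = 0 := by
  unfold wt
  cases f with
  | true =>
    have hs' : s ∉ B.C ⊤ := hs
    simp only [if_true]
    rw [bh_supp B ⊤ s hs', mul_zero]
  | false =>
    have hs' : s ∉ B.C (Subgroup.zpowers c) := hs
    simp only [Bool.false_eq_true, if_false]
    rw [bh_supp B _ s hs']
    have h1 : ∀ z : B.C (Subgroup.zpowers c), bh B ⊤ ((z : G)⁻¹ * s * z) = 0 := by
      intro z
      apply bh_supp
      intro h
      apply hs'
      have h2 := C_top B (Subgroup.zpowers c) h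
      have h3 := (B.C (Subgroup.zpowers c)).mul_mem ((B.C (Subgroup.zpowers c)).mul_mem z.2 h2)
        ((B.C (Subgroup.zpowers c)).inv_mem z.2)
      have e : (z : G) * ((z : G)⁻¹ * s * z) * (z : G)⁻¹ = s := by group
      rwa [e] at h3
    simp only [h1, finsum_zero, mul_zero, sub_zero]

theorem wt_sing (ℓ : ℕ) [Fact ℓ.Prime] (hM : (ℓ : integralClosure ℤ ℂ) ∈ M)
    {E₀ : Subgroup (MulAut V₀)} {B : Bk (FF M) V₀ G} (hB : Sy ℓ M E₀ B) (c : V₀) (f : Bool) (s : G)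
    (hs : ¬ Reg ℓ s) : wt B c f s = 0 := by
  unfold wt
  cases f with
  | true =>
    simp only [if_true]
    rw [bh_sing ℓ hM hB ⊤ s hs, mul_zero]
  | false =>
    simp only [Bool.false_eq_true, if_false]
    rw [bh_sing ℓ hM hB _ s hs]
    have h1 : ∀ z : B.C (Subgroup.zpowers c), bh B ⊤ ((z : G)⁻¹ * s * z) = 0 := by
      intro z
      apply bh_sing ℓ hM hB
      intro h
      apply hs
      unfold Reg at h ⊢
      have e : orderOf ((z : G)⁻¹ * s * z) = orderOf s := by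
        have h2 := (MulAut.conj (z : G)⁻¹).orderOf_eq s
        rwa [MulAut.conj_apply, inv_inv] at h2
      rwa [e] at h
    simp only [h1, finsum_zero, mul_zero, sub_zero]

end wts

/-! ### the sums over the triples -/

section ys

variable {V₀ G : Type} [CommGroup V₀] [Group G] {n m : ℕ} {ι : V₀ →* G}

/-- the sum over the triples -/
def Yg (n m : ℕ) (ι : V₀ →* G) (P Q : Subgroup V₀) (F₁₃ F₁₂ : Set (SS n V₀) → ℚ) (g h : G) : ℚ :=
  ∑ᶠ w : XX g h, (F₁₃ (t13 n m ι P Q g w.1.1 w.1.2.1 w.1.2.2) +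
    F₁₂ (t12 n m ι P Q w.1.1 w.1.2.1 w.1.2.2))

theorem conj_eq {z a : G} (h : z * a = a * z) (x y : G) :
    z * x * z⁻¹ = a * (z * y * z⁻¹) * a⁻¹ ↔ x = a * y * a⁻¹ := by
  have e : a * (z * y * z⁻¹) * a⁻¹ = z * (a * y * a⁻¹) * z⁻¹ := by
    have h1 : a * z = z * a := h.symm
    have h2 : z⁻¹ * a⁻¹ = a⁻¹ * z⁻¹ := by rw [← mul_inv_rev, ← mul_inv_rev, h1]
    calc a * (z * y * z⁻¹) * a⁻¹ = (a * z) * y * (z⁻¹ * a⁻¹) := by group
      _ = (z * a) * y * (a⁻¹ * z⁻¹) := by rw [h1, h2]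
      _ = z * (a * y * a⁻¹) * z⁻¹ := by group
  rw [e]
  constructor
  · intro h1
    exact mul_left_cancel (mul_right_cancel h1)
  · intro h1
    rw [← h1]

theorem c13_conj {z : G} {g x y u : G} {i j : ℕ} {p q : V₀} (h : z * ι p = ι p * z) :
    c13 m ι (z * g * z⁻¹) (z * x * z⁻¹) (z * y * z⁻¹) (z * u) i j p q ↔ c13 m ι g x y u i j p q := by
  unfold c13
  have e1 : (z * g * z⁻¹)⁻¹ * (z * x * z⁻¹) = z * (g⁻¹ * x) * z⁻¹ := by group
  have e2 : (((z * g * z⁻¹)⁻¹ * (z * x * z⁻¹)) ^ m) ^ j = z * ((g⁻¹ * x) ^ m) ^ j * z⁻¹ := by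
    rw [e1, conj_pow, conj_pow]
  have e3 : ((z * x * z⁻¹) ^ m) ^ i = z * (x ^ m) ^ i * z⁻¹ := by rw [conj_pow, conj_pow]
  rw [e2, e3, conj_eq h]
  have e4 : z * ((g⁻¹ * x) ^ m) ^ j * z⁻¹ * (z * y * z⁻¹) * (z * (x ^ m) ^ i * z⁻¹) =
      z * (((g⁻¹ * x) ^ m) ^ j * y * (x ^ m) ^ i) * z⁻¹ := by group
  rw [e4, conj_eq h]
  have e5 : z * ((g⁻¹ * x) ^ m) ^ j * z⁻¹ * (z * u) = z * (((g⁻¹ * x) ^ m) ^ j * u) := by group
  have e6 : ι p * (z * u) * (ι q)⁻¹ = z * (ι p * u * (ι q)⁻¹) := by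
    calc ι p * (z * u) * (ι q)⁻¹ = (ι p * z) * u * (ι q)⁻¹ := by group
      _ = (z * ι p) * u * (ι q)⁻¹ := by rw [h]
      _ = z * (ι p * u * (ι q)⁻¹) := by group
  rw [e5, e6, mul_right_inj]

theorem c12_conj {z : G} {x y u : G} {i k : ℕ} {p q : V₀} (h : z * ι p = ι p * z) :
    c12 m ι (z * x * z⁻¹) (z * y * z⁻¹) (z * u) i k p q ↔ c12 m ι x y u i k p q := by
  unfold c12
  have e1 : kap (z * x * z⁻¹) (z * y * z⁻¹) = z * kap x y * z⁻¹ := by
    unfold kap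
    group
  have e2 : (kap (z * x * z⁻¹) (z * y * z⁻¹) ^ m) ^ k = z * (kap x y ^ m) ^ k * z⁻¹ := by
    rw [e1, conj_pow, conj_pow]
  have e3 : ((z * x * z⁻¹) ^ m) ^ i = z * (x ^ m) ^ i * z⁻¹ := by rw [conj_pow, conj_pow]
  rw [e2, e3]
  have e4 : (z * (kap x y ^ m) ^ k * z⁻¹)⁻¹ * (z * x * z⁻¹) * (z * (kap x y ^ m) ^ k * z⁻¹) =
      z * (((kap x y ^ m) ^ k)⁻¹ * x * (kap x y ^ m) ^ k) * z⁻¹ := by group
  have e5 : (z * (kap x y ^ m) ^ k * z⁻¹)⁻¹ * (z * y * z⁻¹ * (z * (x ^ m) ^ i * z⁻¹)) *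
      (z * (kap x y ^ m) ^ k * z⁻¹) =
      z * (((kap x y ^ m) ^ k)⁻¹ * (y * (x ^ m) ^ i) * (kap x y ^ m) ^ k) * z⁻¹ := by group
  have e6 : ι p * (z * u) * (ι q)⁻¹ = z * (ι p * u * (ι q)⁻¹) := by
    calc ι p * (z * u) * (ι q)⁻¹ = (ι p * z) * u * (ι q)⁻¹ := by group
      _ = (z * ι p) * u * (ι q)⁻¹ := by rw [h]
      _ = z * (ι p * u * (ι q)⁻¹) := by group
  rw [e4, e5, e6, conj_eq h, conj_eq h, mul_right_inj]

theorem mul_eq_r {z b : G} (h : z * b = b * z) (A u c : G) :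
    A * (u * z⁻¹) = c * (u * z⁻¹) * b⁻¹ ↔ A * u = c * u * b⁻¹ := by
  have h2 : z⁻¹ * b⁻¹ = b⁻¹ * z⁻¹ := by rw [← mul_inv_rev, ← mul_inv_rev, h]
  have e1 : A * (u * z⁻¹) = (A * u) * z⁻¹ := by group
  have e2 : c * (u * z⁻¹) * b⁻¹ = (c * u * b⁻¹) * z⁻¹ := by
    calc c * (u * z⁻¹) * b⁻¹ = c * u * (z⁻¹ * b⁻¹) := by group
      _ = c * u * (b⁻¹ * z⁻¹) := by rw [h2]
      _ = (c * u * b⁻¹) * z⁻¹ := by group
  rw [e1, e2, mul_left_inj]

theorem c13_mul {z : G} {g x y u : G} {i j : ℕ} {p q : V₀} (h : z * ι q = ι q * z) :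
    c13 m ι g x y (u * z⁻¹) i j p q ↔ c13 m ι g x y u i j p q := by
  unfold c13
  rw [mul_eq_r h]

theorem c12_mul {z : G} {x y u : G} {i k : ℕ} {p q : V₀} (h : z * ι q = ι q * z) :
    c12 m ι x y (u * z⁻¹) i k p q ↔ c12 m ι x y u i k p q := by
  unfold c12
  have e := mul_eq_r h 1 u (ι p)
  rw [one_mul, one_mul] at e
  rw [e]

/-- the left conjugation -/
def eL (z g h : G) : XX g h ≃ XX (z * g * z⁻¹) h where
  toFun w := ⟨(z * w.1.1 * z⁻¹, z * w.1.2.1 * z⁻¹, z * w.1.2.2), by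
    have h1 := w.2
    show z * w.1.1 * z⁻¹ * (z * w.1.2.1 * z⁻¹) * (z * w.1.1 * z⁻¹)⁻¹ *
      (z * w.1.2.1 * z⁻¹)⁻¹ = z * g * z⁻¹ * (z * w.1.2.2 * h * (z * w.1.2.2)⁻¹)
    have e1 : z * w.1.1 * z⁻¹ * (z * w.1.2.1 * z⁻¹) * (z * w.1.1 * z⁻¹)⁻¹ *
      (z * w.1.2.1 * z⁻¹)⁻¹ = z * (w.1.1 * w.1.2.1 * w.1.1⁻¹ * w.1.2.1⁻¹) * z⁻¹ := by group
    rw [e1, h1]
    group⟩
  invFun w := ⟨(z⁻¹ * w.1.1 * z, z⁻¹ * w.1.2.1 * z, z⁻¹ * w.1.2.2), by
    have h1 := w.2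
    show z⁻¹ * w.1.1 * z * (z⁻¹ * w.1.2.1 * z) * (z⁻¹ * w.1.1 * z)⁻¹ *
      (z⁻¹ * w.1.2.1 * z)⁻¹ = g * (z⁻¹ * w.1.2.2 * h * (z⁻¹ * w.1.2.2)⁻¹)
    have e1 : z⁻¹ * w.1.1 * z * (z⁻¹ * w.1.2.1 * z) * (z⁻¹ * w.1.1 * z)⁻¹ *
      (z⁻¹ * w.1.2.1 * z)⁻¹ = z⁻¹ * (w.1.1 * w.1.2.1 * w.1.1⁻¹ * w.1.2.1⁻¹) * z := by group
    rw [e1, h1]
    group⟩
  left_inv w := by
    apply Subtype.ext
    refine Prod.ext ?_ (Prod.ext ?_ ?_)
    · show z⁻¹ * (z * w.1.1 * z⁻¹) * z = w.1.1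
      group
    · show z⁻¹ * (z * w.1.2.1 * z⁻¹) * z = w.1.2.1
      group
    · show z⁻¹ * (z * w.1.2.2) = w.1.2.2
      group
  right_inv w := by
    apply Subtype.ext
    refine Prod.ext ?_ (Prod.ext ?_ ?_)
    · show z * (z⁻¹ * w.1.1 * z) * z⁻¹ = w.1.1
      group
    · show z * (z⁻¹ * w.1.2.1 * z) * z⁻¹ = w.1.2.1
      group
    · show z * (z⁻¹ * w.1.2.2) = w.1.2.2
      group

/-- the right multiplication -/
def eR (z g h : G) : XX g h ≃ XX g (z * h * z⁻¹) where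
  toFun w := ⟨(w.1.1, w.1.2.1, w.1.2.2 * z⁻¹), by
    have h1 := w.2
    show w.1.1 * w.1.2.1 * w.1.1⁻¹ * w.1.2.1⁻¹ =
      g * (w.1.2.2 * z⁻¹ * (z * h * z⁻¹) * (w.1.2.2 * z⁻¹)⁻¹)
    rw [h1]
    group⟩
  invFun w := ⟨(w.1.1, w.1.2.1, w.1.2.2 * z), by
    have h1 := w.2
    show w.1.1 * w.1.2.1 * w.1.1⁻¹ * w.1.2.1⁻¹ = g * (w.1.2.2 * z * h * (w.1.2.2 * z)⁻¹)
    rw [h1]
    group⟩
  left_inv w := by
    apply Subtype.ext
    refine Prod.ext rfl (Prod.ext rfl ?_)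
    show w.1.2.2 * z⁻¹ * z = w.1.2.2
    group
  right_inv w := by
    apply Subtype.ext
    refine Prod.ext rfl (Prod.ext rfl ?_)
    show w.1.2.2 * z * z⁻¹ = w.1.2.2
    group

theorem Yg_left (P Q : Subgroup V₀) (F₁₃ F₁₂ : Set (SS n V₀) → ℚ) (g h z : G)
    (hz : ∀ p ∈ P, z * ι p = ι p * z) :
    Yg n m ι P Q F₁₃ F₁₂ (z * g * z⁻¹) h = Yg n m ι P Q F₁₃ F₁₂ g h := by
  unfold Yg
  rw [← finsum_comp_equiv (eL z g h)]
  apply finsum_congr
  intro w
  have e1 : t13 n m ι P Q (z * g * z⁻¹) (eL z g h w).1.1 (eL z g h w).1.2.1 (eL z g h w).1.2.2 =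
      t13 n m ι P Q g w.1.1 w.1.2.1 w.1.2.2 := by
    ext s
    constructor
    · rintro ⟨h1, h2, h3⟩
      exact ⟨h1, h2, (c13_conj (hz _ h1)).1 h3⟩
    · rintro ⟨h1, h2, h3⟩
      exact ⟨h1, h2, (c13_conj (hz _ h1)).2 h3⟩
  have e2 : t12 n m ι P Q (eL z g h w).1.1 (eL z g h w).1.2.1 (eL z g h w).1.2.2 =
      t12 n m ι P Q w.1.1 w.1.2.1 w.1.2.2 := by
    ext s
    constructor
    · rintro ⟨h1, h2, h3⟩
      exact ⟨h1, h2, (c12_conj (hz _ h1)).1 h3⟩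
    · rintro ⟨h1, h2, h3⟩
      exact ⟨h1, h2, (c12_conj (hz _ h1)).2 h3⟩
  rw [e1, e2]

theorem Yg_right (P Q : Subgroup V₀) (F₁₃ F₁₂ : Set (SS n V₀) → ℚ) (g h z : G)
    (hz : ∀ q ∈ Q, z * ι q = ι q * z) :
    Yg n m ι P Q F₁₃ F₁₂ g (z * h * z⁻¹) = Yg n m ι P Q F₁₃ F₁₂ g h := by
  unfold Yg
  rw [← finsum_comp_equiv (eR z g h)]
  apply finsum_congr
  intro w
  have e1 : t13 n m ι P Q g (eR z g h w).1.1 (eR z g h w).1.2.1 (eR z g h w).1.2.2 =
      t13 n m ι P Q g w.1.1 w.1.2.1 w.1.2.2 := by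
    ext s
    constructor
    · rintro ⟨h1, h2, h3⟩
      exact ⟨h1, h2, (c13_mul (hz _ h2)).1 h3⟩
    · rintro ⟨h1, h2, h3⟩
      exact ⟨h1, h2, (c13_mul (hz _ h2)).2 h3⟩
  have e2 : t12 n m ι P Q (eR z g h w).1.1 (eR z g h w).1.2.1 (eR z g h w).1.2.2 =
      t12 n m ι P Q w.1.1 w.1.2.1 w.1.2.2 := by
    ext s
    constructor
    · rintro ⟨h1, h2, h3⟩
      exact ⟨h1, h2, (c12_mul (hz _ h2)).1 h3⟩
    · rintro ⟨h1, h2, h3⟩
      exact ⟨h1, h2, (c12_mul (hz _ h2)).2 h3⟩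
  rw [e1, e2]

end ys

/-! ### the main statement -/

theorem rl_mem {M : Ideal (integralClosure ℤ ℂ)} [M.IsMaximal] (ℓ : ℕ) [Fact ℓ.Prime]
    (hM : (ℓ : integralClosure ℤ ℂ) ∈ M) {q : ℚ} (hq : q ∈ SOR.Rl ℓ) : ((q : ℚ) : ℂ) ∈ RM M := by
  have h1 : ¬ ℓ ∣ q.den := hq
  have h2 := inv_nat_RM (Fact.out : ℓ.Prime) hM h1
  have h3 := (rr_int (M := M) q.num).1
  have h4 := (RM M).mul_mem h3 h2
  have e : ((q : ℚ) : ℂ) = (q.num : ℂ) * (q.den : ℂ)⁻¹ := by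
    rw [← div_eq_mul_inv]
    exact Rat.cast_def q
  rw [e]
  exact h4

section main

variable {V₀ G : Type} [CommGroup V₀] [Group G] {F : Type}

theorem mem_C (B : Bk F V₀ G) (P : Subgroup V₀) (z : G) (hz : z ∈ B.C P) (p : V₀) (hp : p ∈ P) :
    z * B.i p = B.i p * z := by
  have h1 : z ∈ Subgroup.centralizer ((P.map B.i : Subgroup G) : Set G) := hz
  rw [Subgroup.mem_centralizer_iff] at h1
  exact (h1 (B.i p) ⟨p, hp, rfl⟩).symm

theorem c_mem (c : V₀) (f : Bool) : c ∈ frm c f := by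
  cases f with
  | true => exact Subgroup.mem_top c
  | false => exact Subgroup.mem_zpowers c

end main

/-- Row LAC. -/
theorem lac (hC : CngStmt) : LacStmt := by
  classical
  intro ℓ _ M _ hM hℓ V₀ G _ _ _ _ E₀ hF B hB n m c d hc hd F₁₃ F₁₂ hR
  have : Fintype G := Fintype.ofFinite G
  unfold TS
  apply Subring.sum_mem
  intro f _
  apply Subring.sum_mem
  intro f' _
  rw [finsum_eq_sum_of_fintype, Fintype.sum_prod_type]
  -- abbreviations
  obtain ⟨P, hP⟩ : ∃ P, P = frm c f := ⟨_, rfl⟩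
  obtain ⟨Q, hQ⟩ : ∃ Q, Q = frm d f' := ⟨_, rfl⟩
  have hcP : c ∈ P := hP ▸ c_mem c f
  have hdQ : d ∈ Q := hQ ▸ c_mem d f'
  obtain ⟨Y, hY⟩ : ∃ Y : G → G → ℚ, Y = fun s t => Yg n m B.i P Q F₁₃ F₁₂ (B.i c * s) (B.i d * t) :=
    ⟨_, rfl⟩
  have hgoal : ∀ s t : G, ((∑ᶠ z : XX (B.i c * s) (B.i d * t),
      (F₁₃ (t13 n m B.i (frm c f) (frm d f') (B.i c * s) z.1.1 z.1.2.1 z.1.2.2) +
        F₁₂ (t12 n m B.i (frm c f) (frm d f') z.1.1 z.1.2.1 z.1.2.2)) : ℚ) : ℂ) =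
      ((Y s t : ℚ) : ℂ) := by
    intro s t
    rw [hY, hP, hQ]
    rfl
  simp only [hgoal]
  have hYl : ∀ z ∈ B.C P, ∀ s t, Y (z * s * z⁻¹) t = Y s t := by
    intro z hz s t
    have h1 := mem_C B P z hz
    rw [hY]
    show Yg n m B.i P Q F₁₃ F₁₂ (B.i c * (z * s * z⁻¹)) (B.i d * t) = _
    have e : B.i c * (z * s * z⁻¹) = z * (B.i c * s) * z⁻¹ := by
      calc B.i c * (z * s * z⁻¹) = (B.i c * z) * s * z⁻¹ := by group
        _ = (z * B.i c) * s * z⁻¹ := by rw [h1 c hcP]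
        _ = z * (B.i c * s) * z⁻¹ := by group
    rw [e]
    exact Yg_left P Q F₁₃ F₁₂ _ _ z h1
  have hYr : ∀ z ∈ B.C Q, ∀ s t, Y s (z * t * z⁻¹) = Y s t := by
    intro z hz s t
    have h1 := mem_C B Q z hz
    rw [hY]
    show Yg n m B.i P Q F₁₃ F₁₂ (B.i c * s) (B.i d * (z * t * z⁻¹)) = _
    have e : B.i d * (z * t * z⁻¹) = z * (B.i d * t) * z⁻¹ := by
      calc B.i d * (z * t * z⁻¹) = (B.i d * z) * t * z⁻¹ := by group
        _ = (z * B.i d) * t * z⁻¹ := by rw [h1 d hdQ]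
        _ = z * (B.i d * t) * z⁻¹ := by group
    rw [e]
    exact Yg_right P Q F₁₃ F₁₂ _ _ z h1
  have hYv : ∀ s ∈ B.C P, ∀ t ∈ B.C Q, Reg ℓ s → Reg ℓ t →
      ∃ x ∈ SOR.Rl ℓ, Y s t = Nat.card P * Nat.card Q * x := by
    intro s hs t ht hrs hrt
    obtain ⟨x, hx, h⟩ := hR P Q hcP hdQ s t hrs hrt (fun p hp => (mem_C B P s hs p hp).symm)
      (fun q hq => (mem_C B Q t ht q hq).symm)
    refine ⟨x, hx, ?_⟩
    rw [hY]
    exact h
  have hPc : (Nat.card P : ℂ) ≠ 0 := by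
    have h : 0 < Nat.card P := Nat.card_pos
    exact_mod_cast h.ne'
  -- the inner sums
  have hin : ∀ s ∈ B.C P, Reg ℓ s → ∑ t, wt B d f' t * ((Y s t : ℂ) / Nat.card P) ∈ RM M := by
    intro s hs hrs
    refine csum (RM M) (B.C Q) (fun t => wt B d f' t * ((Y s t : ℂ) / Nat.card P)) ?_ ?_
    · intro z hz t
      have hz' : z ∈ B.C (frm d f') := hQ ▸ hz
      show wt B d f' (z * t * z⁻¹) * ((Y s (z * t * z⁻¹) : ℂ) / Nat.card P) = _
      rw [wt_conj B d f' z hz' t, hYr z hz s t]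
    · intro t
      by_cases ht : t ∈ B.C Q
      · by_cases hrt : Reg ℓ t
        · obtain ⟨x, hx, h⟩ := hYv s hs t ht hrs hrt
          have h1 := hC ℓ M hM hℓ V₀ G E₀ hF B hB d hd f' t (hQ ▸ ht)
          rw [← hQ] at h1
          have h2 := (RM M).mul_mem h1 (rl_mem ℓ hM hx)
          have e : (Nat.card (B.C Q) : ℂ) * (wt B d f' t * ((Y s t : ℂ) / Nat.card P)) /
              Nat.card (B.C Q ⊓ Cu t : Subgroup G) =
              (Nat.card Q : ℂ) * (Nat.card (B.C Q) * wt B d f' t) /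
                Nat.card (B.C Q ⊓ Cu t : Subgroup G) * ((x : ℚ) : ℂ) := by
            rw [h]
            push_cast
            field_simp
          show (Nat.card (B.C Q) : ℂ) * (wt B d f' t * ((Y s t : ℂ) / Nat.card P)) /
              Nat.card (B.C Q ⊓ Cu t : Subgroup G) ∈ RM M
          rw [e]
          exact h2
        · show (Nat.card (B.C Q) : ℂ) * (wt B d f' t * ((Y s t : ℂ) / Nat.card P)) /
              Nat.card (B.C Q ⊓ Cu t : Subgroup G) ∈ RM M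
          rw [wt_sing ℓ hM hB d f' t hrt, zero_mul, mul_zero, zero_div]
          exact (RM M).zero_mem
      · show (Nat.card (B.C Q) : ℂ) * (wt B d f' t * ((Y s t : ℂ) / Nat.card P)) /
              Nat.card (B.C Q ⊓ Cu t : Subgroup G) ∈ RM M
        rw [wt_supp B d f' t (hQ ▸ ht), zero_mul, mul_zero, zero_div]
        exact (RM M).zero_mem
  -- the outer sum
  have hs0 : ∑ s, ∑ t, wt B c f s * wt B d f' t * (Y s t : ℂ) =
      ∑ s, wt B c f s * ∑ t, wt B d f' t * (Y s t : ℂ) := by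
    refine Finset.sum_congr rfl fun s _ => ?_
    rw [Finset.mul_sum]
    exact Finset.sum_congr rfl fun t _ => by ring
  rw [hs0]
  refine csum (RM M) (B.C P) (fun s => wt B c f s * ∑ t, wt B d f' t * (Y s t : ℂ)) ?_ ?_
  · intro z hz s
    have hz' : z ∈ B.C (frm c f) := hP ▸ hz
    show wt B c f (z * s * z⁻¹) * ∑ t, wt B d f' t * (Y (z * s * z⁻¹) t : ℂ) = _
    rw [wt_conj B c f z hz' s]
    simp only [hYl z hz]
  · intro s
    show (Nat.card (B.C P) : ℂ) * (wt B c f s * ∑ t, wt B d f' t * (Y s t : ℂ)) /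
      Nat.card (B.C P ⊓ Cu s : Subgroup G) ∈ RM M
    by_cases hs : s ∈ B.C P
    · by_cases hrs : Reg ℓ s
      · have h1 := hC ℓ M hM hℓ V₀ G E₀ hF B hB c hc f s (hP ▸ hs)
        rw [← hP] at h1
        have h2 := (RM M).mul_mem h1 (hin s hs hrs)
        have e0 : ∑ t, wt B d f' t * (Y s t : ℂ) =
            Nat.card P * ∑ t, wt B d f' t * ((Y s t : ℂ) / Nat.card P) := by
          rw [Finset.mul_sum]
          refine Finset.sum_congr rfl fun t _ => ?_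
          field_simp
        have e : (Nat.card (B.C P) : ℂ) * (wt B c f s * ∑ t, wt B d f' t * (Y s t : ℂ)) /
            Nat.card (B.C P ⊓ Cu s : Subgroup G) =
            (Nat.card P : ℂ) * (Nat.card (B.C P) * wt B c f s) /
              Nat.card (B.C P ⊓ Cu s : Subgroup G) *
              ∑ t, wt B d f' t * ((Y s t : ℂ) / Nat.card P) := by
          rw [e0]
          ring
        rw [e]
        exact h2
      · rw [wt_sing ℓ hM hB c f s hrs, zero_mul, mul_zero, zero_div]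
        exact (RM M).zero_mem
    · rw [wt_supp B c f s (hP ▸ hs), zero_mul, mul_zero, zero_div]
      exact (RM M).zero_mem

end Pool.Agent.PP.SO.H10L
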