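import Pool.Agent.ASO.Stmts1

/-!
# Row NTM of the squad ASO: the term of the pairs of commuting permutations

The proof does not use orbits: `b z` is a representative of the orbit of `z` under `a`,
`z = a ^ (t z) (b z)`, and `w z = 1 - t (a z) + t z` satisfies `a ^ (w z) z = z` and
`∑ w F = ∑ F` for all `a`-invariant functions `F`.
-/

open scoped BigOperators

noncomputable section

namespace Pool.Agent.PP.SO.H10

/-- representatives of the orbits of a permutation -/
theorem bt {Z : Type} (a : Equiv.Perm Z) :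
    ∃ (b : Z → Z) (t : Z → ℤ), (∀ z, (a ^ t z) (b z) = z) ∧ ∀ z, b (a z) = b z := by
  classical
  have hex : ∀ z : Z, Equiv.Perm.SameCycle a
      (Quotient.out (Quotient.mk (Equiv.Perm.SameCycle.setoid a) z)) z := by
    intro z
    have h := Quotient.mk_out (s := Equiv.Perm.SameCycle.setoid a) z
    exact h
  choose t ht using hex
  refine ⟨fun z => Quotient.out (Quotient.mk (Equiv.Perm.SameCycle.setoid a) z), t, ht, ?_⟩
  intro z
  have h : Quotient.mk (Equiv.Perm.SameCycle.setoid a) (a z) =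
      Quotient.mk (Equiv.Perm.SameCycle.setoid a) z := by
    apply Quotient.sound
    have h1 : Equiv.Perm.SameCycle a (a z) z := ⟨-1, by simp⟩
    exact h1
  simp only [h]

/-- an invariant function is invariant under all powers -/
theorem invz {Z W : Type} (a : Equiv.Perm Z) (f : Z → W) (hf : ∀ z, f (a z) = f z) (m : ℤ) (z : Z) :
    f ((a ^ m) z) = f z := by
  induction m using Int.induction_on generalizing z with
  | zero => simp
  | succ n ih =>
    rw [zpow_add, zpow_one, Equiv.Perm.mul_apply, ih, hf]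
  | pred n ih =>
    rw [zpow_sub, zpow_one, Equiv.Perm.mul_apply, ih]
    have h := hf (a⁻¹ z)
    rw [← h]
    simp

/-- the values of `p` along an orbit -/
theorem pz {Z : Type} (R : Subring ℚ) (a : Equiv.Perm Z) (p μ : Z → ℚ) (hμ : ∀ z, μ (a z) = μ z)
    (hp : ∀ z, p (a z) - p z - μ z ∈ R) (m : ℤ) (z : Z) : p ((a ^ m) z) - p z - m * μ z ∈ R := by
  induction m using Int.induction_on generalizing z with
  | zero => simp [R.zero_mem]
  | succ n ih =>
    rw [zpow_add, zpow_one, Equiv.Perm.mul_apply]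
    have h := R.add_mem (ih (a z)) (hp z)
    rw [hμ] at h
    have e : p ((a ^ (n : ℤ)) (a z)) - p z - ((n : ℤ) + 1 : ℤ) * μ z =
        p ((a ^ (n : ℤ)) (a z)) - p (a z) - (n : ℤ) * μ z + (p (a z) - p z - μ z) := by
      push_cast
      ring
    rw [e]
    exact h
  | pred n ih =>
    rw [zpow_sub, zpow_one, Equiv.Perm.mul_apply]
    have h1 := ih (a⁻¹ z)
    have h2 := hp (a⁻¹ z)
    have h3 : a (a⁻¹ z) = z := by simp
    have h4 : μ (a⁻¹ z) = μ z := by
      have h := hμ (a⁻¹ z)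
      rw [h3] at h
      exact h.symm
    rw [h3, h4] at h2
    rw [h4] at h1
    have h := R.sub_mem h1 h2
    have e : p ((a ^ (-(n : ℤ))) (a⁻¹ z)) - p z - ((-(n : ℤ) - 1 : ℤ) : ℚ) * μ z =
        p ((a ^ (-(n : ℤ))) (a⁻¹ z)) - p (a⁻¹ z) - ((-(n : ℤ) : ℤ) : ℚ) * μ z -
          (p z - p (a⁻¹ z) - μ z) := by
      push_cast
      ring
    rw [e]
    exact h

/-- the weighted sum -/
theorem wsum {Z : Type} [Fintype Z] (g : Equiv.Perm Z) (t F : Z → ℚ) (hF : ∀ z, F (g z) = F z) :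
    ∑ z, (1 - t (g z) + t z) * F z = ∑ z, F z := by
  have h1 : ∑ z, t (g z) * F z = ∑ z, t z * F z := by
    rw [← Equiv.sum_comp g (fun z => t z * F z)]
    apply Finset.sum_congr rfl
    intro z _
    rw [hF]
  have h2 : ∑ z, (1 - t (g z) + t z) * F z = ∑ z, F z - ∑ z, t (g z) * F z + ∑ z, t z * F z := by
    rw [← Finset.sum_sub_distrib, ← Finset.sum_add_distrib]
    apply Finset.sum_congr rfl
    intro z _
    ring
  rw [h2, h1]
  ring

/-- the sum of a function which is invariant under `a` and `C` -/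
theorem sum_inv {Z : Type} [Fintype Z] (R : Subring ℚ) (a C : Equiv.Perm Z) (hc : a * C = C * a)
    (h : Z → ℚ) (ha : ∀ z, h (a z) = h z) (hC : ∀ z, h (C z) = h z)
    (H : ∀ (z : Z) (n k j : ℤ), (a ^ n) z = z → (C ^ k) z = (a ^ j) z → n * k * h z ∈ R) :
    ∑ z, h z ∈ R := by
  classical
  obtain ⟨b, t, hb, hba⟩ := bt a
  have hco : ∀ (m n : ℤ) (z : Z), (C ^ m) ((a ^ n) z) = (a ^ n) ((C ^ m) z) := by
    intro m n z
    have h1 : Commute a C := hc
    have h2 := (h1.zpow_zpow n m).eq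
    have h3 := congrArg (fun g : Equiv.Perm Z => g z) h2
    simpa using h3.symm
  -- the permutation of the orbits of `a`
  let S := Equiv.Perm.SameCycle.setoid a
  let Cq : Equiv.Perm (Quotient S) := Quotient.congr C (by
    intro x y
    constructor
    · rintro ⟨i, hi⟩
      refine ⟨i, ?_⟩
      have h1 := hco 1 i x
      rw [zpow_one] at h1
      rw [← h1, hi]
    · rintro ⟨i, hi⟩
      refine ⟨i, ?_⟩
      have h1 := hco 1 i x
      rw [zpow_one] at h1
      rw [← h1] at hi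
      exact C.injective hi)
  have hCq : ∀ z, Cq (Quotient.mk S z) = Quotient.mk S (C z) := fun z => rfl
  have hCqz : ∀ (m : ℤ) z, (Cq ^ m) (Quotient.mk S z) = Quotient.mk S ((C ^ m) z) := by
    intro m
    induction m using Int.induction_on with
    | zero => intro z; simp
    | succ n ih =>
      intro z
      rw [zpow_add, zpow_one, Equiv.Perm.mul_apply, hCq, ih, zpow_add, zpow_one,
        Equiv.Perm.mul_apply]
    | pred n ih =>
      intro z
      have h1 : Cq⁻¹ (Quotient.mk S z) = Quotient.mk S (C⁻¹ z) := by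
        rw [Equiv.Perm.inv_eq_iff_eq, hCq]
        simp
      rw [zpow_sub, zpow_one, Equiv.Perm.mul_apply, h1, ih, zpow_sub, zpow_one,
        Equiv.Perm.mul_apply]
  obtain ⟨b', t', hb', hba'⟩ := bt Cq
  have e1 : ∑ z, h z = ∑ z, (1 - (t' (Quotient.mk S (C z)) : ℚ) + t' (Quotient.mk S z)) * h z :=
    (wsum C (fun z => (t' (Quotient.mk S z) : ℚ)) h hC).symm
  have hmk : ∀ z, Quotient.mk S (a z) = Quotient.mk S z := by
    intro z
    apply Quotient.sound
    have h1 : Equiv.Perm.SameCycle a (a z) z := ⟨-1, by simp⟩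
    exact h1
  have hmk2 : ∀ z, Quotient.mk S (C (a z)) = Quotient.mk S (C z) := by
    intro z
    have h1 := hco 1 1 z
    rw [zpow_one, zpow_one] at h1
    rw [h1]
    exact hmk _
  have e2 := wsum a (fun z => (t z : ℚ))
    (fun z => (1 - (t' (Quotient.mk S (C z)) : ℚ) + t' (Quotient.mk S z)) * h z) (by
      intro z
      simp only [hmk, hmk2, ha])
  rw [e1, ← e2]
  apply Subring.sum_mem
  intro z _
  have h1 : (a ^ (1 - t (a z) + t z)) z = z := by
    have h2 := hb z
    have h3 := hb (a z)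
    rw [hba] at h3
    have h4 : (a ^ (1 - t (a z) + t z)) (b z) = b z := by
      have e : (1 - t (a z) + t z : ℤ) = - t (a z) + (1 + t z) := by ring
      rw [e, zpow_add, zpow_add, zpow_one, Equiv.Perm.mul_apply, Equiv.Perm.mul_apply, h2, zpow_neg,
        Equiv.Perm.inv_eq_iff_eq, h3]
    have h5 : (a ^ (1 - t (a z) + t z)) ((a ^ t z) (b z)) = (a ^ t z) (b z) := by
      rw [← Equiv.Perm.mul_apply, ← zpow_add, add_comm, zpow_add, Equiv.Perm.mul_apply, h4]
    rw [h2] at h5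
    exact h5
  have h2 : ∃ j : ℤ, (C ^ (1 - t' (Quotient.mk S (C z)) + t' (Quotient.mk S z))) z = (a ^ j) z := by
    have g2 := hb' (Quotient.mk S z)
    have g3 := hb' (Cq (Quotient.mk S z))
    rw [hba'] at g3
    have g4 : (Cq ^ (1 - t' (Cq (Quotient.mk S z)) + t' (Quotient.mk S z))) (b' (Quotient.mk S z)) =
        b' (Quotient.mk S z) := by
      have e : (1 - t' (Cq (Quotient.mk S z)) + t' (Quotient.mk S z) : ℤ) =
        - t' (Cq (Quotient.mk S z)) + (1 + t' (Quotient.mk S z)) := by ring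
      rw [e, zpow_add, zpow_add, zpow_one, Equiv.Perm.mul_apply, Equiv.Perm.mul_apply, g2, zpow_neg,
        Equiv.Perm.inv_eq_iff_eq, g3]
    have g5 : (Cq ^ (1 - t' (Cq (Quotient.mk S z)) + t' (Quotient.mk S z)))
        ((Cq ^ t' (Quotient.mk S z)) (b' (Quotient.mk S z))) =
        (Cq ^ t' (Quotient.mk S z)) (b' (Quotient.mk S z)) := by
      rw [← Equiv.Perm.mul_apply, ← zpow_add, add_comm, zpow_add, Equiv.Perm.mul_apply, g4]
    rw [g2, hCqz, hCq] at g5
    have g6 := Quotient.exact g5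
    obtain ⟨i, hi⟩ := g6
    refine ⟨-i, ?_⟩
    rw [zpow_neg, Equiv.Perm.eq_inv_iff_eq]
    exact hi
  obtain ⟨j, hj⟩ := h2
  have h3 := H z _ _ j h1 hj
  have e : ((1 - t (a z) + t z : ℤ) : ℚ) *
      ((1 - t' (Quotient.mk S (C z)) + t' (Quotient.mk S z) : ℤ) : ℚ) * h z =
      (1 - (t (a z) : ℚ) + t z) *
        ((1 - (t' (Quotient.mk S (C z)) : ℚ) + t' (Quotient.mk S z)) * h z) := by
    push_cast
    ring
  rw [e] at h3
  exact h3

/-- an integer exponent can be replaced by a natural one -/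
theorem nat_exp {Z : Type} [Finite Z] (a : Equiv.Perm Z) (j : ℤ) : ∃ n : ℕ, a ^ n = a ^ j := by
  classical
  have h1 : 0 < orderOf a := orderOf_pos a
  refine ⟨(j % (orderOf a : ℤ)).toNat, ?_⟩
  have h2 : 0 ≤ j % (orderOf a : ℤ) := Int.emod_nonneg _ (by positivity)
  rw [← zpow_natCast, Int.toNat_of_nonneg h2, zpow_mod_orderOf]

/-- Row NTM. -/
theorem ntm : NtmStmt := by
  intro R Z _ a C hc p₁ p₂ μ₁ μ₂ k₀ k₁ hμ hk hp hkk
  classical
  have : Fintype Z := Fintype.ofFinite Z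
  rw [finsum_eq_sum_of_fintype, finsum_eq_sum_of_fintype]
  obtain ⟨b, t, hb, hba⟩ := bt a
  have hcz : ∀ (m n : ℤ) (z : Z), (C ^ m) ((a ^ n) z) = (a ^ n) ((C ^ m) z) := by
    intro m n z
    have h1 : Commute a C := hc
    have h2 := (h1.zpow_zpow n m).eq
    have h3 := congrArg (fun g : Equiv.Perm Z => g z) h2
    simpa using h3.symm
  have hca : ∀ z, C (a z) = a (C z) := by
    intro z
    have h := hcz 1 1 z
    simpa using h
  -- the orbit map
  have hbz : ∀ (m : ℤ) z, b ((a ^ m) z) = b z := fun m z => invz a b hba m z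
  have hbb : ∀ z, b (b z) = b z := by
    intro z
    have h := hbz (t z) (b z)
    rw [hb] at h
    exact h.symm
  have hfb : ∀ (f : Z → ℚ), (∀ z, f (a z) = f z) → ∀ z, f (b z) = f z := by
    intro f hf z
    have h := invz a f hf (t z) (b z)
    rw [hb] at h
    exact h.symm
  have hkb : ∀ (f : Z → ℕ), (∀ z, f (a z) = f z) → ∀ z, f (b z) = f z := by
    intro f hf z
    have h := invz a f hf (t z) (b z)
    rw [hb] at h
    exact h.symm
  -- the difference `d`
  let d : Z → ℤ := fun z => t (C (b z))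
  have hbC : ∀ z, b (C (b z)) = b (C z) := by
    intro z
    have h1 := hcz 1 (t z) (b z)
    rw [zpow_one, hb] at h1
    rw [h1, hbz]
  have hd : ∀ z, (a ^ d z) (b (C z)) = C (b z) := by
    intro z
    have h := hb (C (b z))
    rw [hbC] at h
    exact h
  have hda : ∀ z, d (a z) = d z := by
    intro z
    simp only [d, hba]
  -- the weight
  let w : Z → ℤ := fun z => 1 - t (a z) + t z
  have hw : ∀ z, (a ^ w z) z = z := by
    intro z
    have h2 := hb z
    have h3 := hb (a z)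
    rw [hba] at h3
    have h4 : (a ^ w z) (b z) = b z := by
      have e : w z = - t (a z) + (1 + t z) := by simp only [w]; ring
      rw [e, zpow_add, zpow_add, zpow_one, Equiv.Perm.mul_apply, Equiv.Perm.mul_apply, h2, zpow_neg,
        Equiv.Perm.inv_eq_iff_eq, h3]
    have h5 : (a ^ w z) ((a ^ t z) (b z)) = (a ^ t z) (b z) := by
      rw [← Equiv.Perm.mul_apply, ← zpow_add, add_comm, zpow_add, Equiv.Perm.mul_apply, h4]
    rw [h2] at h5
    exact h5
  have hfix1 : ∀ (m : ℤ) z, (a ^ m) z = z → m * μ₁ z ∈ R := by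
    intro m z h
    have h1 := pz R a p₁ μ₁ (fun z => (hμ z).1) (fun z => (hp z).1) m z
    rw [h] at h1
    have h2 := R.neg_mem h1
    have e : -(p₁ z - p₁ z - m * μ₁ z) = m * μ₁ z := by ring
    rwa [e] at h2
  have hfix2 : ∀ (m : ℤ) z, (a ^ m) z = z → m * μ₂ z ∈ R := by
    intro m z h
    have h1 := pz R a p₂ μ₂ (fun z => (hμ z).2.2.1) (fun z => (hp z).2) m z
    rw [h] at h1
    have h2 := R.neg_mem h1
    have e : -(p₂ z - p₂ z - m * μ₂ z) = m * μ₂ z := by ring
    rwa [e] at h2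
  -- `n₁ = p₁ ∘ C - p₁`
  let n₁ : Z → ℚ := fun z => p₁ (C z) - p₁ z
  have hn : ∀ z, n₁ (a z) - n₁ z ∈ R := by
    intro z
    have h1 := (hp (C z)).1
    have h2 := (hp z).1
    rw [(hμ z).2.1] at h1
    have h := R.sub_mem h1 h2
    have e : n₁ (a z) - n₁ z = p₁ (a (C z)) - p₁ (C z) - μ₁ z - (p₁ (a z) - p₁ z - μ₁ z) := by
      simp only [n₁, hca]
      ring
    rw [e]
    exact h
  have hnb : ∀ z, n₁ z - n₁ (b z) ∈ R := by
    intro z
    have h := pz R a n₁ (fun _ => 0) (fun _ => rfl) (fun z => by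
      rw [sub_zero]
      exact hn z) (t z) (b z)
    rw [hb] at h
    simpa using h
  -- step 1
  have s1 : ∑ z, ((p₁ (a (C z)) - p₁ (C z)) - (p₁ (a z) - p₁ z)) * p₂ (a z) -
      ∑ z, (n₁ (a z) - n₁ z) * (t (a z) * μ₂ z + p₂ (b z)) ∈ R := by
    rw [← Finset.sum_sub_distrib]
    apply Subring.sum_mem
    intro z _
    have h1 := pz R a p₂ μ₂ (fun z => (hμ z).2.2.1) (fun z => (hp z).2) (t (a z)) (b (a z))
    rw [hb, hba, hfb μ₂ (fun z => (hμ z).2.2.1)] at h1
    have h2 := R.mul_mem (hn z) h1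
    have e : ((p₁ (a (C z)) - p₁ (C z)) - (p₁ (a z) - p₁ z)) * p₂ (a z) -
        (n₁ (a z) - n₁ z) * (t (a z) * μ₂ z + p₂ (b z)) =
        (n₁ (a z) - n₁ z) * (p₂ (a z) - p₂ (b z) - t (a z) * μ₂ z) := by
      simp only [n₁, hca]
      ring
    rw [e]
    exact h2
  -- step 2
  have s2 : ∑ z, (n₁ (a z) - n₁ z) * (t (a z) * μ₂ z + p₂ (b z)) =
      ∑ z, n₁ z * (w z * μ₂ z) := by
    have e1 : ∑ z, n₁ (a z) * (t (a z) * μ₂ z + p₂ (b z)) =
        ∑ z, n₁ z * (t z * μ₂ z + p₂ (b z)) := by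
      rw [← Equiv.sum_comp a (fun z => n₁ z * (t z * μ₂ z + p₂ (b z)))]
      apply Finset.sum_congr rfl
      intro z _
      rw [hba, (hμ z).2.2.1]
    have e2 : ∑ z, n₁ z * μ₂ z = 0 := by
      have e3 : ∑ z, p₁ (C z) * μ₂ z = ∑ z, p₁ z * μ₂ z := by
        rw [← Equiv.sum_comp C (fun z => p₁ z * μ₂ z)]
        apply Finset.sum_congr rfl
        intro z _
        rw [(hμ z).2.2.2]
      have e4 : ∑ z, n₁ z * μ₂ z = ∑ z, p₁ (C z) * μ₂ z - ∑ z, p₁ z * μ₂ z := by
        rw [← Finset.sum_sub_distrib]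
        apply Finset.sum_congr rfl
        intro z _
        simp only [n₁]
        ring
      rw [e4, e3]
      ring
    have e5 : ∑ z, (n₁ (a z) - n₁ z) * (t (a z) * μ₂ z + p₂ (b z)) =
        ∑ z, n₁ (a z) * (t (a z) * μ₂ z + p₂ (b z)) -
        ∑ z, n₁ z * (t (a z) * μ₂ z + p₂ (b z)) := by
      rw [← Finset.sum_sub_distrib]
      apply Finset.sum_congr rfl
      intro z _
      ring
    rw [e5, e1, ← Finset.sum_sub_distrib, ← add_zero (∑ z, n₁ z * (w z * μ₂ z)), ← neg_zero, ← e2,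
      ← Finset.sum_neg_distrib, ← Finset.sum_add_distrib]
    apply Finset.sum_congr rfl
    intro z _
    simp only [w]
    push_cast
    ring
  -- step 3
  have s3 : ∑ z, n₁ z * (w z * μ₂ z) -
      ∑ z, (p₁ (b (C z)) + d z * μ₁ z - p₁ (b z)) * (w z * μ₂ z) ∈ R := by
    rw [← Finset.sum_sub_distrib]
    apply Subring.sum_mem
    intro z _
    have h1 := pz R a p₁ μ₁ (fun z => (hμ z).1) (fun z => (hp z).1) (d z) (b (C z))
    rw [hd, hfb μ₁ (fun z => (hμ z).1), (hμ z).2.1] at h1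
    have h2 := R.mul_mem (R.add_mem (hnb z) h1) (hfix2 (w z) z (hw z))
    have e : n₁ z * (w z * μ₂ z) - (p₁ (b (C z)) + d z * μ₁ z - p₁ (b z)) * (w z * μ₂ z) =
        (n₁ z - n₁ (b z) + (p₁ (C (b z)) - p₁ (b (C z)) - d z * μ₁ z)) * (w z * μ₂ z) := by
      simp only [n₁]
      ring
    rw [e]
    exact h2
  -- step 4
  have s4 : ∑ z, (p₁ (b (C z)) + d z * μ₁ z - p₁ (b z)) * (w z * μ₂ z) =
      ∑ z, d z * (μ₁ z * μ₂ z) := by
    have e1 := wsum a (fun z => (t z : ℚ))
      (fun z => (p₁ (b (C z)) + d z * μ₁ z - p₁ (b z)) * μ₂ z) (by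
        intro z
        simp only [hba, hda, (hμ z).1, (hμ z).2.2.1, hca])
    have e2 : ∑ z, (p₁ (b (C z)) + d z * μ₁ z - p₁ (b z)) * (w z * μ₂ z) =
        ∑ z, (1 - (t (a z) : ℚ) + t z) * ((p₁ (b (C z)) + d z * μ₁ z - p₁ (b z)) * μ₂ z) := by
      apply Finset.sum_congr rfl
      intro z _
      simp only [w]
      push_cast
      ring
    have e3 : ∑ z, p₁ (b (C z)) * μ₂ z = ∑ z, p₁ (b z) * μ₂ z := by
      rw [← Equiv.sum_comp C (fun z => p₁ (b z) * μ₂ z)]
      apply Finset.sum_congr rfl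
      intro z _
      rw [(hμ z).2.2.2]
    have e4 : ∑ z, (p₁ (b (C z)) + d z * μ₁ z - p₁ (b z)) * μ₂ z =
        ∑ z, p₁ (b (C z)) * μ₂ z + ∑ z, d z * (μ₁ z * μ₂ z) - ∑ z, p₁ (b z) * μ₂ z := by
      rw [← Finset.sum_add_distrib, ← Finset.sum_sub_distrib]
      apply Finset.sum_congr rfl
      intro z _
      ring
    rw [e2, e1, e4, e3]
    ring
  -- the second half
  let D : Z → ℤ := fun z => ∑ s ∈ Finset.range (k₀ z), d ((C ^ s) z)
  have hD : ∀ (m : ℕ) z, (C ^ m) (b z) =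
      (a ^ (∑ s ∈ Finset.range m, d ((C ^ s) z))) (b ((C ^ m) z)) := by
    intro m
    induction m with
    | zero => intro z; simp
    | succ m ih =>
      intro z
      rw [pow_succ', Equiv.Perm.mul_apply, ih, Finset.sum_range_succ, Equiv.Perm.mul_apply]
      have h1 := hcz 1 (∑ s ∈ Finset.range m, d ((C ^ s) z)) (b ((C ^ m) z))
      rw [zpow_one] at h1
      rw [h1, ← hd, zpow_add, Equiv.Perm.mul_apply]
  let e : Z → ℤ := fun z => k₁ z - D z
  have heb : ∀ z, (a ^ e z) (b z) = b z := by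
    intro z
    have h1 := hD (k₀ z) z
    have h2 := (hkk (b z)).2.1
    rw [hkb k₀ (fun z => (hk z).1), hkb k₁ (fun z => (hk z).2.2.1)] at h2
    have h3 : b ((C ^ k₀ z) z) = b z := by
      rw [(hkk z).2.1]
      have h := hbz (k₁ z : ℤ) z
      rw [zpow_natCast] at h
      exact h
    rw [h3] at h1
    rw [h1] at h2
    have h4 : (a ^ (k₁ z : ℤ)) (b z) = (a ^ D z) (b z) := by
      rw [zpow_natCast]
      exact h2.symm
    have e1 : e z = - D z + (k₁ z : ℤ) := by simp only [e]; ring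
    rw [e1, zpow_add, Equiv.Perm.mul_apply, h4, zpow_neg, Equiv.Perm.inv_eq_iff_eq]
  have hez : ∀ z, (a ^ e z) z = z := by
    intro z
    have h5 : (a ^ e z) ((a ^ t z) (b z)) = (a ^ t z) (b z) := by
      rw [← Equiv.Perm.mul_apply, ← zpow_add, add_comm, zpow_add, Equiv.Perm.mul_apply, heb]
    rw [hb] at h5
    exact h5
  have hCs : ∀ (s : ℕ) z, (C ^ s) (a z) = a ((C ^ s) z) := by
    intro s z
    have h := hcz s 1 z
    simpa using h
  have hDa : ∀ z, D (a z) = D z := by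
    intro z
    simp only [D, (hk z).1, hCs, hda]
  have hDC : ∀ z, D (C z) = D z := by
    intro z
    simp only [D, (hk z).2.1]
    have h1 : ∀ s, (C ^ s) (C z) = (C ^ (s + 1)) z := by
      intro s
      rw [pow_succ, Equiv.Perm.mul_apply]
    simp only [h1]
    have h2 := Finset.sum_range_succ (fun s => d ((C ^ s) z)) (k₀ z)
    have h3 := Finset.sum_range_succ' (fun s => d ((C ^ s) z)) (k₀ z)
    have h4 : d ((C ^ k₀ z) z) = d z := by
      rw [(hkk z).2.1]
      have h := invz a d hda (k₁ z : ℤ) z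
      rw [zpow_natCast] at h
      exact h
    simp only [h4] at h2
    simp only [pow_zero, Equiv.Perm.coe_one, id_eq] at h3
    rw [h2] at h3
    exact (add_right_cancel h3).symm
  -- the sum of `D`
  have s5 : ∑ z, (D z : ℚ) * (μ₁ z * μ₂ z / k₀ z) = ∑ z, d z * (μ₁ z * μ₂ z) := by
    let K : ℕ := ∑ z, k₀ z
    have hK : ∀ z, k₀ z ≤ K := fun z => Finset.single_le_sum (fun _ _ => Nat.zero_le _)
      (Finset.mem_univ z)
    have e1 : ∀ (f : Z → ℕ → ℚ) z, ∑ s ∈ Finset.range (k₀ z), f z s =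
        ∑ s ∈ Finset.range K, if s < k₀ z then f z s else 0 := by
      intro f z
      rw [← Finset.sum_filter]
      apply Finset.sum_congr _ (fun _ _ => rfl)
      ext s
      simp only [Finset.mem_range, Finset.mem_filter]
      constructor
      · intro h
        exact ⟨lt_of_lt_of_le h (hK z), h⟩
      · intro h
        exact h.2
    have e2 : ∀ z, (D z : ℚ) * (μ₁ z * μ₂ z / k₀ z) = ∑ s ∈ Finset.range K,
        if s < k₀ z then (d ((C ^ s) z) : ℚ) * (μ₁ z * μ₂ z / k₀ z) else 0 := by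
      intro z
      rw [← e1 (fun z s => (d ((C ^ s) z) : ℚ) * (μ₁ z * μ₂ z / k₀ z)) z]
      simp only [D]
      push_cast
      rw [Finset.sum_mul]
    have e3 : ∀ z, d z * (μ₁ z * μ₂ z) = ∑ s ∈ Finset.range K,
        if s < k₀ z then (d z : ℚ) * (μ₁ z * μ₂ z / k₀ z) else 0 := by
      intro z
      rw [← e1 (fun z _ => (d z : ℚ) * (μ₁ z * μ₂ z / k₀ z)) z]
      rw [Finset.sum_const, Finset.card_range, nsmul_eq_mul]
      have h0 : (k₀ z : ℚ) ≠ 0 := by
        have := (hkk z).1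
        positivity
      field_simp
    simp only [e2, e3]
    rw [Finset.sum_comm]
    conv_rhs => rw [Finset.sum_comm]
    apply Finset.sum_congr rfl
    intro s _
    rw [← Equiv.sum_comp (C ^ s) (fun z =>
      if s < k₀ z then (d z : ℚ) * (μ₁ z * μ₂ z / k₀ z) else 0)]
    apply Finset.sum_congr rfl
    intro z _
    have g1 : k₀ ((C ^ s) z) = k₀ z := by
      have h := invz C k₀ (fun z => (hk z).2.1) (s : ℤ) z
      rw [zpow_natCast] at h
      exact h
    have g2 : μ₁ ((C ^ s) z) = μ₁ z := by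
      have h := invz C μ₁ (fun z => (hμ z).2.1) (s : ℤ) z
      rw [zpow_natCast] at h
      exact h
    have g3 : μ₂ ((C ^ s) z) = μ₂ z := by
      have h := invz C μ₂ (fun z => (hμ z).2.2.2) (s : ℤ) z
      rw [zpow_natCast] at h
      exact h
    rw [g1, g2, g3]
  -- the sum of `e`
  have s6 : ∑ z, (e z : ℚ) * (μ₁ z * μ₂ z / k₀ z) ∈ R := by
    apply sum_inv R a C hc (fun z => (e z : ℚ) * (μ₁ z * μ₂ z / k₀ z))
    · intro z
      simp only [e, hDa, (hk z).1, (hk z).2.2.1, (hμ z).1, (hμ z).2.2.1]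
    · intro z
      simp only [e, hDC, (hk z).2.1, (hk z).2.2.2, (hμ z).2.1, (hμ z).2.2.2]
    · intro z n k j hn1 hkj
      have h1 := hfix1 n z hn1
      have h2 := hfix2 (e z) z (hez z)
      have h3 : (k : ℚ) / k₀ z ∈ R := by
        have key : ∀ (k : ℕ) (j : ℤ), (C ^ (k : ℤ)) z = (a ^ j) z → (k : ℚ) / k₀ z ∈ R := by
          intro k j h
          obtain ⟨n, hn2⟩ := nat_exp a j
          rw [zpow_natCast, ← hn2] at h
          exact (hkk z).2.2 k n h
        rcases Int.eq_nat_or_neg k with ⟨m, rfl | rfl⟩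
        · have := key m j hkj
          simpa using this
        · have h4 : (C ^ (m : ℤ)) z = (a ^ (-j)) z := by
            rw [zpow_neg, Equiv.Perm.inv_eq_iff_eq, hcz] at hkj
            rw [zpow_neg, Equiv.Perm.eq_inv_iff_eq]
            exact hkj.symm
          have := R.neg_mem (key m (-j) h4)
          have e1 : (((-(m : ℤ) : ℤ) : ℚ)) / k₀ z = -((m : ℚ) / k₀ z) := by
            push_cast
            ring
          rw [e1]
          exact this
      have h4 := R.mul_mem (R.mul_mem h1 h2) h3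
      have e1 : (n : ℚ) * k * ((e z : ℚ) * (μ₁ z * μ₂ z / k₀ z)) =
          n * μ₁ z * (e z * μ₂ z) * (k / k₀ z) := by ring
      rw [e1]
      exact h4
  have s7 : ∑ z, (k₁ z : ℚ) / k₀ z * μ₁ z * μ₂ z = ∑ z, d z * (μ₁ z * μ₂ z) +
      ∑ z, (e z : ℚ) * (μ₁ z * μ₂ z / k₀ z) := by
    rw [← s5, ← Finset.sum_add_distrib]
    apply Finset.sum_congr rfl
    intro z _
    simp only [e]
    push_cast
    ring
  rw [s7]
  rw [s2] at s1
  rw [s4] at s3
  have hfin := R.sub_mem (R.add_mem s1 s3) s6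
  have e0 : ∑ z, ((p₁ (a (C z)) - p₁ (C z)) - (p₁ (a z) - p₁ z)) * p₂ (a z) -
      (∑ z, d z * (μ₁ z * μ₂ z) + ∑ z, (e z : ℚ) * (μ₁ z * μ₂ z / k₀ z)) =
      ∑ z, ((p₁ (a (C z)) - p₁ (C z)) - (p₁ (a z) - p₁ z)) * p₂ (a z) -
      ∑ z, n₁ z * (w z * μ₂ z) + (∑ z, n₁ z * (w z * μ₂ z) - ∑ z, d z * (μ₁ z * μ₂ z)) -
      ∑ z, (e z : ℚ) * (μ₁ z * μ₂ z / k₀ z) := by ring
  rw [e0]
  exact hfin

end Pool.Agent.PP.SO.H10
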