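import Pool.Agent.ASO.Stmts4
import Pool.Agent.Helper94_PP.LemQ
import Pool.Agent.Helper62_WRA.Dz1

/-!
# Row W12B of the squad ASO: the value of `HK` for `aL ≠ ⊥`
-/

open scoped BigOperators

set_option linter.unusedSectionVars false

noncomputable section

namespace Pool.Agent.PP.SO.H10W

open Pool.Agent.Helper51_AWC Pool.Agent.Helper79_WRA Pool.Agent.PP Pool.Agent.PP.KF
open Pool.Agent.PP.K9 Pool.Agent.PP.K9.H97 Pool.Agent.PP.H75 Pool.Agent.PP.T3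
open Pool.Agent.PP.SO

attribute [local instance] Ideal.Quotient.field

/-! ### the linear characters -/

/-- the sum over the linear characters -/
theorem lin_sum {V₀ : Type} [CommGroup V₀] [Finite V₀] [DecidableEq V₀] (hfin : (lin V₀).Finite)
    (v : V₀) : ∑ f ∈ hfin.toFinset, f v = if v = 1 then (Nat.card V₀ : ℂ) else 0 := by
  classical
  have : Fintype V₀ := Fintype.ofFinite V₀
  have h := AddChar.sum_apply_eq_ite (α := Additive V₀) (Additive.ofMul v)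
  have e1 : (if Additive.ofMul v = 0 then ((Fintype.card (Additive V₀) : ℕ) : ℂ) else 0) =
      if v = 1 then (Nat.card V₀ : ℂ) else 0 := by
    have h1 : Additive.ofMul v = 0 ↔ v = 1 := Iff.rfl
    have h2 : Fintype.card (Additive V₀) = Nat.card V₀ := by
      rw [Nat.card_eq_fintype_card]
      exact Fintype.card_congr Additive.toMul
    simp only [h1, h2]
  rw [← e1, ← h]
  symm
  refine Finset.sum_bij (fun ψ _ => fun w : V₀ => ψ (Additive.ofMul w)) ?_ ?_ ?_ ?_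
  · intro ψ _
    rw [Set.Finite.mem_toFinset]
    exact ⟨ψ.map_zero_eq_one, fun a b => ψ.map_add_eq_mul (Additive.ofMul a) (Additive.ofMul b)⟩
  · intro ψ _ ψ' _ h1
    ext w
    exact congrFun h1 (Additive.toMul w)
  · intro f hf
    rw [Set.Finite.mem_toFinset] at hf
    exact ⟨⟨fun w => f (Additive.toMul w), hf.1, fun a b => hf.2 _ _⟩, Finset.mem_univ _, rfl⟩
  · intro ψ _
    rfl

/-- the complex conjugate of a value of a linear character -/
theorem lin_conj {V₀ : Type} [CommGroup V₀] [Finite V₀] {f : V₀ → ℂ} (hf : f ∈ lin V₀) (v : V₀) :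
    starRingEnd ℂ (f v) = f v⁻¹ := by
  have h1 : ∀ n : ℕ, f (v ^ n) = f v ^ n := by
    intro n
    induction n with
    | zero => rw [pow_zero, pow_zero, hf.1]
    | succ n ih => rw [pow_succ, pow_succ, hf.2, ih]
  have h2 : f v * f v⁻¹ = 1 := by rw [← hf.2, mul_inv_cancel, hf.1]
  have h3 : f v ^ orderOf v = 1 := by rw [← h1, pow_orderOf_eq_one, hf.1]
  have h4 : ‖f v‖ = 1 := by
    have h5 := congrArg norm h3
    rw [norm_pow, norm_one] at h5
    exact (pow_eq_one_iff_of_nonneg (norm_nonneg _) (orderOf_pos v).ne').1 h5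
  have h5 : f v * starRingEnd ℂ (f v) = 1 := by
    rw [Complex.mul_conj, Complex.normSq_eq_norm_sq, h4]
    simp
  have h6 : f v ≠ 0 := by
    intro h
    rw [h, zero_mul] at h2
    exact zero_ne_one h2
  exact mul_left_cancel₀ h6 (h5.trans h2.symm)

/-! ### characters -/

/-- the mean over the conjugates -/
theorem irr_avg {H : Type} [Group H] [Fintype H] {χ : H → ℂ} (hχ : χ ∈ Irr H) (g x : H) :
    ∑ z, χ (z * g * z⁻¹ * x) = Fintype.card H * (χ g * χ x / χ 1) := by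
  classical
  have h1 := Pool.Agent.Helper79_WRA.H62.irr_scalar hχ (fun y => ∑ z : H, if z * g * z⁻¹ = y then (1 : ℂ) else 0) (by
    intro y h
    rw [← Equiv.sum_comp (Equiv.mulLeft h)]
    refine Finset.sum_congr rfl fun z _ => ?_
    have e : (h * z * g * (h * z)⁻¹ = h * y * h⁻¹) ↔ (z * g * z⁻¹ = y) := by
      have e1 : h * z * g * (h * z)⁻¹ = h * (z * g * z⁻¹) * h⁻¹ := by group
      rw [e1]
      constructor
      · intro h2
        exact mul_left_cancel (mul_right_cancel h2)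
      · intro h2
        rw [h2]
    show (if h * z * g * (h * z)⁻¹ = h * y * h⁻¹ then (1 : ℂ) else 0) = _
    simp only [e]) x
  have e2 : ∀ F : H → ℂ, ∑ y, (∑ z : H, if z * g * z⁻¹ = y then (1 : ℂ) else 0) * F y =
      ∑ z, F (z * g * z⁻¹) := by
    intro F
    simp only [Finset.sum_mul]
    rw [Finset.sum_comm]
    refine Finset.sum_congr rfl fun z _ => ?_
    simp only [ite_mul, one_mul, zero_mul]
    rw [Finset.sum_ite_eq]
    simp
  rw [e2 (fun y => χ (y * x)), e2 χ] at h1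
  rw [h1]
  have e3 : ∑ z : H, χ (z * g * z⁻¹) = Fintype.card H * χ g := by
    have : ∀ z : H, χ (z * g * z⁻¹) = χ g := fun z => irr_conj hχ g z
    simp only [this]
    rw [Finset.sum_const, Finset.card_univ, nsmul_eq_mul]
  rw [e3]
  ring

section ch

variable {V₀ G : Type} [CommGroup V₀] [Finite V₀] [Group G] [Fintype G]
  {M : Ideal (integralClosure ℤ ℂ)} [M.IsMaximal]

omit [Finite V₀] in
theorem ch_star {B : Bk (FF M) V₀ G} {A : Subgroup V₀} {χ : G → ℂ} (hχ : χ ∈ Ch B A) (g : G) :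
    starRingEnd ℂ (χ g) = χ g⁻¹ := by
  by_cases hg : g ∈ B.C A
  · have h1 := H94.irr_star hχ.2.1 (⟨g, hg⟩ : B.C A)
    exact h1
  · have h1 : g⁻¹ ∉ B.C A := fun h => hg ((B.C A).inv_mem_iff.1 h)
    rw [hχ.1 g hg, hχ.1 _ h1, map_zero]

omit [Finite V₀] in
theorem ch_avg {B : Bk (FF M) V₀ G} {A : Subgroup V₀} [Fintype (B.C A)] {χ : G → ℂ}
    (hχ : χ ∈ Ch B A) {g x : G} (hg : g ∈ B.C A) (hx : x ∈ B.C A) :
    ∑ z : B.C A, χ ((z : G) * g * (z : G)⁻¹ * x) =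
      Fintype.card (B.C A) * (χ g * χ x / χ 1) :=
  irr_avg hχ.2.1 (⟨g, hg⟩ : B.C A) ⟨x, hx⟩

omit [Finite V₀] in
theorem ch_fin (B : Bk (FF M) V₀ G) (A : Subgroup V₀) : (Ch B A).Finite := by
  have := Fintype.ofFinite (B.C A)
  have h1 : (Irr (B.C A)).Finite := irr_finite'
  refine Set.Finite.of_injOn (f := fun χ : G → ℂ => fun t : B.C A => χ t) (t := Irr (B.C A)) ?_ ?_ h1
  · intro χ hχ
    exact hχ.2.1
  · intro χ hχ ψ hψ h
    funext g
    by_cases hg : g ∈ B.C A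
    · exact congrFun h ⟨g, hg⟩
    · rw [hχ.1 g hg, hψ.1 g hg]

end ch

/-- a number as a sum -/
theorem ncard_sum {X : Type} [Fintype X] (P : X → Prop) [DecidablePred P] :
    (({w | P w}.ncard : ℕ) : ℂ) = ∑ w, if P w then (1 : ℂ) else 0 := by
  classical
  rw [Set.ncard_eq_toFinset_card', Finset.sum_boole]
  congr 2
  ext w
  simp

/-- the mean -/
theorem avg {G : Type} [Group G] [Fintype G] (H : Subgroup G) [Fintype H] (S : Set (G × G))
    [DecidablePred (· ∈ S)] (e : H → (G × G) ≃ (G × G)) (hS : ∀ z w, e z w ∈ S ↔ w ∈ S)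
    (F : G × G → ℂ) : (Fintype.card H : ℂ) * ∑ w, (if w ∈ S then F w else 0) =
      ∑ w, (if w ∈ S then ∑ z : H, F (e z w) else 0) := by
  have h1 : ∀ z : H, ∑ w, (if w ∈ S then F w else 0) = ∑ w, (if w ∈ S then F (e z w) else 0) := by
    intro z
    rw [← Equiv.sum_comp (e z)]
    refine Finset.sum_congr rfl fun w _ => ?_
    simp only [hS]
  have h2 : (Fintype.card H : ℂ) * ∑ w, (if w ∈ S then F w else 0) =
      ∑ z : H, ∑ w, (if w ∈ S then F (e z w) else 0) := by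
    have h3 : ∑ z : H, ∑ w, (if w ∈ S then F (e z w) else 0) =
        ∑ z : H, ∑ w, (if w ∈ S then F w else 0) :=
      Finset.sum_congr rfl fun z _ => (h1 z).symm
    rw [h3, Finset.sum_const, Finset.card_univ, nsmul_eq_mul]
  rw [h2, Finset.sum_comm]
  refine Finset.sum_congr rfl fun w _ => ?_
  split_ifs
  · rfl
  · simp

/-- conjugation of pairs -/
def ec {G : Type} [Group G] (H : Subgroup G) (z : H) : (G × G) ≃ (G × G) where
  toFun w := ((z : G)⁻¹ * w.1 * z, (z : G)⁻¹ * w.2 * z)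
  invFun w := ((z : G) * w.1 * (z : G)⁻¹, (z : G) * w.2 * (z : G)⁻¹)
  left_inv w := by
    refine Prod.ext ?_ ?_
    · show (z : G) * ((z : G)⁻¹ * w.1 * z) * (z : G)⁻¹ = w.1
      group
    · show (z : G) * ((z : G)⁻¹ * w.2 * z) * (z : G)⁻¹ = w.2
      group
  right_inv w := by
    refine Prod.ext ?_ ?_
    · show (z : G)⁻¹ * ((z : G) * w.1 * (z : G)⁻¹) * z = w.1
      group
    · show (z : G)⁻¹ * ((z : G) * w.2 * (z : G)⁻¹) * z = w.2
      group

/-- left multiplication of the second component -/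
def em {G : Type} [Group G] (H : Subgroup G) (z : H) : (G × G) ≃ (G × G) where
  toFun w := (w.1, (z : G) * w.2)
  invFun w := (w.1, (z : G)⁻¹ * w.2)
  left_inv w := by
    refine Prod.ext rfl ?_
    show (z : G)⁻¹ * ((z : G) * w.2) = w.2
    group
  right_inv w := by
    refine Prod.ext rfl ?_
    show (z : G) * ((z : G)⁻¹ * w.2) = w.2
    group

/-- Row W12B. -/
theorem w12b (hS : SslStmt) (hN : NsvStmt) : W12BStmt := by
  classical
  intro ℓ _ M _ hM hℓ V₀ G _ _ _ _ E₀ hF B hB n m hPE κ L hA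
  have iG : Fintype G := Fintype.ofFinite G
  have iV : Fintype V₀ := Fintype.ofFinite _
  obtain ⟨A, hAd⟩ : ∃ A, A = aL κ L := ⟨_, rfl⟩
  rw [← hAd] at hA ⊢
  have iH : Fintype (B.C A) := Fintype.ofFinite (B.C A)
  obtain ⟨nsv1, nsv2, -, nsv4, -, -, -⟩ := hN ℓ M hM hℓ V₀ G E₀ hF B hB A hA
  -- the elements `a`
  let a : SS n V₀ → V₀ := fun s => κ ^ (s.2.1 : ℕ) * s.2.2.1
  have hAcl : A = Subgroup.closure (a '' L) := by
    rw [hAd]
    unfold aL
    congr 1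
  have hHmem : ∀ x : G, x ∈ B.C A ↔ ∀ s ∈ L, B.i (a s) * x = x * B.i (a s) := by
    intro x
    have h1 : B.C A = Subgroup.centralizer (B.i '' (a '' L)) := by
      unfold Bk.C
      rw [hAcl, MonoidHom.map_closure, Subgroup.centralizer_closure]
    rw [h1, Subgroup.mem_centralizer_iff]
    constructor
    · intro h s hs
      exact h _ ⟨a s, ⟨s, hs, rfl⟩, rfl⟩
    · rintro h _ ⟨_, ⟨s, hs, rfl⟩, rfl⟩
      exact h s hs
  have haz : ∀ z ∈ B.C A, ∀ s ∈ L, B.i (a s) * z = z * B.i (a s) := fun z hz => (hHmem z).1 hz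
  -- the set `S`
  let S : Set (G × G) := {w | ∀ s ∈ L, B.i (a s) * w.1 = w.1 * B.i (a s) ∧
    w.2⁻¹ * B.i (a s) * w.2 = B.i (a s) * (w.1 ^ m) ^ (s.1 : ℕ)}
  have hSx : ∀ w ∈ S, w.1 ∈ B.C A := fun w hw => (hHmem _).2 fun s hs => (hw s hs).1
  -- `y x y⁻¹ ∈ H`
  have hSy : ∀ w ∈ S, w.2 * w.1 * w.2⁻¹ ∈ B.C A := by
    intro w hw
    rw [hHmem]
    intro s hs
    obtain ⟨h1, h2⟩ := hw s hs
    have h3 : w.1 * (w.2⁻¹ * B.i (a s) * w.2) = (w.2⁻¹ * B.i (a s) * w.2) * w.1 := by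
      rw [h2, ← mul_assoc, ← h1, mul_assoc, mul_assoc]
      congr 1
      exact (((Commute.refl w.1).pow_right m).pow_right _).eq
    have h4 : B.i (a s) * (w.2 * w.1 * w.2⁻¹) =
        w.2 * ((w.2⁻¹ * B.i (a s) * w.2) * w.1) * w.2⁻¹ := by group
    have h5 : w.2 * w.1 * w.2⁻¹ * B.i (a s) =
        w.2 * (w.1 * (w.2⁻¹ * B.i (a s) * w.2)) * w.2⁻¹ := by group
    rw [h4, h5, h3]
  have hSk : ∀ w ∈ S, kap w.1 w.2 ∈ B.C A := by
    intro w hw
    have h1 := (B.C A).mul_mem (hSx w hw) ((B.C A).inv_mem (hSy w hw))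
    have e : w.1 * (w.2 * w.1 * w.2⁻¹)⁻¹ = kap w.1 w.2 := by
      unfold kap
      group
    rwa [e] at h1
  -- invariance under `ec`
  have hSc1 : ∀ (z : B.C A) w, w ∈ S → ec (B.C A) z w ∈ S := by
    intro z w hw s hs
    obtain ⟨h1, h2⟩ := hw s hs
    have h3 := haz z z.2 s hs
    have h3' : B.i (a s) * (z : G)⁻¹ = (z : G)⁻¹ * B.i (a s) := by
      rw [mul_inv_eq_iff_eq_mul, mul_assoc, h3]
      group
    constructor
    · show B.i (a s) * ((z : G)⁻¹ * w.1 * z) = (z : G)⁻¹ * w.1 * z * B.i (a s)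
      calc B.i (a s) * ((z : G)⁻¹ * w.1 * z) = (B.i (a s) * (z : G)⁻¹) * w.1 * z := by group
        _ = (z : G)⁻¹ * (B.i (a s) * w.1) * z := by rw [h3']; group
        _ = (z : G)⁻¹ * w.1 * (B.i (a s) * z) := by rw [h1]; group
        _ = (z : G)⁻¹ * w.1 * z * B.i (a s) := by rw [h3]; group
    · show ((z : G)⁻¹ * w.2 * z)⁻¹ * B.i (a s) * ((z : G)⁻¹ * w.2 * z) =
        B.i (a s) * (((z : G)⁻¹ * w.1 * z) ^ m) ^ (s.1 : ℕ)
      have e1 : (((z : G)⁻¹ * w.1 * z) ^ m) ^ (s.1 : ℕ) = (z : G)⁻¹ * (w.1 ^ m) ^ (s.1 : ℕ) * z := by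
        have e2 := conj_pow (i := m) (a := (z : G)⁻¹) (b := w.1)
        rw [inv_inv] at e2
        rw [e2]
        have e3 := conj_pow (i := (s.1 : ℕ)) (a := (z : G)⁻¹) (b := w.1 ^ m)
        rw [inv_inv] at e3
        exact e3
      rw [e1]
      calc ((z : G)⁻¹ * w.2 * z)⁻¹ * B.i (a s) * ((z : G)⁻¹ * w.2 * z) =
          (z : G)⁻¹ * (w.2⁻¹ * ((z : G) * (B.i (a s) * (z : G)⁻¹)) * w.2) * z := by group
        _ = (z : G)⁻¹ * (w.2⁻¹ * B.i (a s) * w.2) * z := by rw [h3']; group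
        _ = ((z : G)⁻¹ * B.i (a s)) * (w.1 ^ m) ^ (s.1 : ℕ) * z := by rw [h2]; group
        _ = B.i (a s) * ((z : G)⁻¹ * (w.1 ^ m) ^ (s.1 : ℕ) * z) := by rw [← h3']; group
  have hSc : ∀ (z : B.C A) w, ec (B.C A) z w ∈ S ↔ w ∈ S := by
    intro z w
    refine ⟨fun h => ?_, hSc1 z w⟩
    have h1 := hSc1 z⁻¹ _ h
    have e : ec (B.C A) z⁻¹ (ec (B.C A) z w) = w := by
      refine Prod.ext ?_ ?_
      · show ((z⁻¹ : B.C A) : G)⁻¹ * ((z : G)⁻¹ * w.1 * z) * ((z⁻¹ : B.C A) : G) = w.1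
        rw [Subgroup.coe_inv]
        group
      · show ((z⁻¹ : B.C A) : G)⁻¹ * ((z : G)⁻¹ * w.2 * z) * ((z⁻¹ : B.C A) : G) = w.2
        rw [Subgroup.coe_inv]
        group
    rwa [e] at h1
  -- invariance under `em`
  have hSm : ∀ (z : B.C A) w, em (B.C A) z w ∈ S ↔ w ∈ S := by
    intro z w
    have h0 : ∀ s ∈ L, ((z : G) * w.2)⁻¹ * B.i (a s) * ((z : G) * w.2) =
        w.2⁻¹ * B.i (a s) * w.2 := by
      intro s hs
      have h3 := haz z z.2 s hs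
      calc ((z : G) * w.2)⁻¹ * B.i (a s) * ((z : G) * w.2) =
          w.2⁻¹ * ((z : G)⁻¹ * (B.i (a s) * z)) * w.2 := by group
        _ = w.2⁻¹ * B.i (a s) * w.2 := by rw [h3]; group
    constructor
    · intro h s hs
      obtain ⟨h1, h2⟩ := h s hs
      refine ⟨h1, ?_⟩
      rw [← h0 s hs]
      exact h2
    · intro h s hs
      obtain ⟨h1, h2⟩ := h s hs
      refine ⟨h1, ?_⟩
      show ((z : G) * w.2)⁻¹ * B.i (a s) * ((z : G) * w.2) = _
      rw [h0 s hs]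
      exact h2
  have hHc : (Fintype.card (B.C A) : ℂ) ≠ 0 := by
    exact_mod_cast Fintype.card_ne_zero
  -- step 1 to 3
  have s1 : HK B m κ L = (Fintype.card (B.C A) : ℂ)⁻¹ *
      ∑ w, (if w ∈ S then fc B A κ (kap w.1 w.2) else 0) := by
    obtain ⟨K, hK⟩ : ∃ K, K = A ⊔ Subgroup.zpowers κ := ⟨_, rfl⟩
    have e1 : HK B m κ L = (Nat.card (B.C K) : ℂ)⁻¹ *
        ∑ w : G × G, (if w ∈ S then bh B K ((B.i κ)⁻¹ * kap w.1 w.2) else 0) := by
      unfold HK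
      rw [← hAd, ← hK, finsum_eq_sum_of_fintype]
      congr 1
      have e2 : ∀ t : G, (({w : G × G | kap w.1 w.2 = B.i κ * t ∧ ∀ s ∈ L,
          B.i (κ ^ (s.2.1 : ℕ) * s.2.2.1) * w.1 = w.1 * B.i (κ ^ (s.2.1 : ℕ) * s.2.2.1) ∧
          w.2⁻¹ * B.i (κ ^ (s.2.1 : ℕ) * s.2.2.1) * w.2 =
            B.i (κ ^ (s.2.1 : ℕ) * s.2.2.1) * (w.1 ^ m) ^ (s.1 : ℕ)}.ncard : ℕ) : ℂ) =
          ∑ w : G × G, if kap w.1 w.2 = B.i κ * t ∧ w ∈ S then (1 : ℂ) else 0 := fun t =>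
        ncard_sum (fun w : G × G => kap w.1 w.2 = B.i κ * t ∧ w ∈ S)
      simp only [e2, Finset.mul_sum]
      rw [Finset.sum_comm]
      refine Finset.sum_congr rfl fun w _ => ?_
      by_cases hw : w ∈ S
      · rw [if_pos hw, Finset.sum_eq_single ((B.i κ)⁻¹ * kap w.1 w.2)]
        · rw [if_pos ⟨by group, hw⟩, mul_one]
        · intro t _ ht
          rw [if_neg, mul_zero]
          rintro ⟨h1, -⟩
          apply ht
          rw [h1]
          group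
        · intro h
          exact absurd (Finset.mem_univ _) h
      · rw [if_neg hw]
        refine Finset.sum_eq_zero fun t _ => ?_
        rw [if_neg (fun h => hw h.2), mul_zero]
    have e3 := avg (B.C A) S (ec (B.C A)) hSc (fun w => bh B K ((B.i κ)⁻¹ * kap w.1 w.2))
    have e4 : ∑ w, (if w ∈ S then fc B A κ (kap w.1 w.2) else 0) = (Nat.card (B.C K) : ℂ)⁻¹ *
        ∑ w, (if w ∈ S then ∑ z : B.C A, bh B K ((B.i κ)⁻¹ *
          kap (ec (B.C A) z w).1 (ec (B.C A) z w).2) else 0) := by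
      rw [Finset.mul_sum]
      refine Finset.sum_congr rfl fun w _ => ?_
      split_ifs
      · unfold fc
        rw [← hK, finsum_eq_sum_of_fintype]
        congr 1
        refine Finset.sum_congr rfl fun z _ => ?_
        congr 2
        show (z : G)⁻¹ * kap w.1 w.2 * z = kap ((z : G)⁻¹ * w.1 * z) ((z : G)⁻¹ * w.2 * z)
        unfold kap
        group
      · rw [mul_zero]
    rw [e4, ← e3, e1]
    field_simp
  -- constants
  have hDt := hB.dg A hA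
  have hD0 : ((B.D A : ℕ) : ℂ) ≠ 0 := by exact_mod_cast hDt.1.ne'
  have hl0 : ((ℓ : ℕ) : ℂ) ≠ 0 := by
    exact_mod_cast (Fact.out : ℓ.Prime).ne_zero
  have hu0 : ((ux B.U A κ : ℚ) : ℂ) ≠ 0 := by
    have htop : (⊤ : Subgroup V₀) ≠ ⊥ := fun h => hA (le_bot_iff.1 (h ▸ le_top))
    have h1 : ux B.U A κ ≠ 0 := by
      unfold ux
      split_ifs
      · exact one_ne_zero
      · unfold Bk.U
        have h2 : ((B.S A : ℤ) : ℚ) ≠ 0 := by
          rcases hB.sg A hA with h | h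
          · rw [h]; norm_num
          · rw [h]; norm_num
        have h3 : ((B.D A : ℕ) : ℚ) ≠ 0 := by exact_mod_cast hDt.1.ne'
        have h4 : ((B.D ⊤ : ℕ) : ℚ) ≠ 0 := by exact_mod_cast (hB.dg ⊤ htop).1.ne'
        have h5 : ((Nat.card (B.C A) : ℕ) : ℚ) ≠ 0 := by
          have : 0 < Nat.card (B.C A) := Nat.card_pos
          exact_mod_cast this.ne'
        have h6 : ((Nat.card (B.C ⊤) : ℕ) : ℚ) ≠ 0 := by
          have : 0 < Nat.card (B.C ⊤) := Nat.card_pos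
          exact_mod_cast this.ne'
        exact div_ne_zero (mul_ne_zero (mul_ne_zero h2 h5) h4) (mul_ne_zero h6 h3)
    exact_mod_cast h1
  obtain ⟨u, hu⟩ : ∃ u : ℂ, u = ((ux B.U A κ : ℚ) : ℂ) := ⟨_, rfl⟩
  rw [← hu] at hu0
  have hNc : (Nat.card (B.C A) : ℂ) = Fintype.card (B.C A) := by rw [Nat.card_eq_fintype_card]
  -- the characters
  have hfin := ch_fin B A
  obtain ⟨X, hX⟩ : ∃ X, X = hfin.toFinset := ⟨_, rfl⟩
  have hXm : ∀ χ, χ ∈ X ↔ χ ∈ Ch B A := by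
    intro χ
    rw [hX, Set.Finite.mem_toFinset]
  have hlfin : (lin V₀).Finite := by
    rw [← nsv1.image_eq]
    exact hfin.image _
  have hlam : ∀ χ ∈ X, lam B A χ ∈ lin V₀ := fun χ hχ => nsv1.mapsTo ((hXm χ).1 hχ)
  have horth : ∀ v : V₀, ∑ χ ∈ X, lam B A χ v = if v = 1 then ((ℓ : ℕ) : ℂ) ^ 2 else 0 := by
    intro v
    have h1 := lin_sum hlfin v
    rw [hF.cd] at h1
    push_cast at h1
    rw [← h1]
    refine Finset.sum_bij (fun χ _ => lam B A χ) ?_ ?_ ?_ ?_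
    · intro χ hχ
      rw [Set.Finite.mem_toFinset]
      exact hlam χ hχ
    · intro χ hχ ψ hψ h
      exact nsv1.injOn ((hXm χ).1 hχ) ((hXm ψ).1 hψ) h
    · intro f hf
      rw [Set.Finite.mem_toFinset] at hf
      obtain ⟨χ, hχ, h⟩ := nsv1.surjOn hf
      exact ⟨χ, (hXm χ).2 hχ, h⟩
    · intro χ _
      rfl
  -- step 4
  have s4 : ∀ g ∈ B.C A, fc B A κ g = ((B.D A : ℕ) : ℂ) / Fintype.card (B.C A) * u *
      ∑ χ ∈ X, lam B A χ κ * χ g⁻¹ := by
    intro g hg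
    have h1 : ∀ χ ∈ X, χ g⁻¹ = (Fintype.card (B.C A) : ℂ) / (((ℓ : ℕ) : ℂ) ^ 2 * B.D A) *
        ∑ x : V₀, starRingEnd ℂ (lam B A χ x) / (ux B.U A x : ℚ) * fc B A x g := by
      intro χ hχ
      have h2 := nsv4 χ ((hXm χ).1 hχ) g⁻¹ ((B.C A).inv_mem hg)
      rw [inv_inv, hNc, finsum_eq_sum_of_fintype] at h2
      exact h2
    have h2 : ∑ χ ∈ X, lam B A χ κ * χ g⁻¹ = (Fintype.card (B.C A) : ℂ) /
        (((ℓ : ℕ) : ℂ) ^ 2 * B.D A) *
        ∑ x : V₀, (∑ χ ∈ X, lam B A χ (κ * x⁻¹)) / (ux B.U A x : ℚ) * fc B A x g := by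
      rw [Finset.sum_congr rfl (fun χ hχ => by rw [h1 χ hχ])]
      simp only [Finset.mul_sum, Finset.sum_div, Finset.sum_mul]
      rw [Finset.sum_comm]
      refine Finset.sum_congr rfl fun x _ => Finset.sum_congr rfl fun χ hχ => ?_
      rw [lin_conj (hlam χ hχ), (hlam χ hχ).2]
      ring
    rw [h2]
    simp only [horth]
    rw [Finset.sum_eq_single κ]
    · rw [mul_inv_cancel, if_pos rfl, ← hu]
      field_simp
    · intro x _ hx
      rw [if_neg (fun h => hx (mul_inv_eq_one.1 h).symm), zero_div, zero_mul]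
    · intro h
      exact absurd (Finset.mem_univ _) h
  -- step 5
  have hone : ∀ χ ∈ X, χ 1 = ((B.D A : ℕ) : ℂ) := by
    intro χ hχ
    have h1 := hDt.2 _ ((hXm χ).1 hχ).2
    exact h1
  have s5 : ∀ χ ∈ X, ∑ w, (if w ∈ S then χ (kap w.1 w.2)⁻¹ else 0) =
      (((B.D A : ℕ) : ℂ))⁻¹ *
        ∑ w, (if w ∈ S then χ (w.2 * w.1 * w.2⁻¹) * χ w.1⁻¹ else 0) := by
    intro χ hχ
    have e1 := avg (B.C A) S (em (B.C A)) hSm (fun w => χ (kap w.1 w.2)⁻¹)
    have e2 : ∑ w, (if w ∈ S then ∑ z : B.C A,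
        χ (kap (em (B.C A) z w).1 (em (B.C A) z w).2)⁻¹ else 0) =
        ∑ w, (if w ∈ S then (Fintype.card (B.C A) : ℂ) *
          (χ (w.2 * w.1 * w.2⁻¹) * χ w.1⁻¹ / ((B.D A : ℕ) : ℂ)) else 0) := by
      refine Finset.sum_congr rfl fun w _ => ?_
      by_cases hw : w ∈ S
      · rw [if_pos hw, if_pos hw]
        have h1 := ch_avg ((hXm χ).1 hχ) (hSy w hw) ((B.C A).inv_mem (hSx w hw))
        rw [hone χ hχ] at h1
        rw [← h1]
        refine Finset.sum_congr rfl fun z _ => ?_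
        congr 1
        show (kap w.1 ((z : G) * w.2))⁻¹ = (z : G) * (w.2 * w.1 * w.2⁻¹) * (z : G)⁻¹ * w.1⁻¹
        unfold kap
        group
      · rw [if_neg hw, if_neg hw]
    rw [e2] at e1
    have e3 : ∑ w, (if w ∈ S then (Fintype.card (B.C A) : ℂ) *
          (χ (w.2 * w.1 * w.2⁻¹) * χ w.1⁻¹ / ((B.D A : ℕ) : ℂ)) else 0) =
        (Fintype.card (B.C A) : ℂ) * ((((B.D A : ℕ) : ℂ))⁻¹ *
        ∑ w, (if w ∈ S then χ (w.2 * w.1 * w.2⁻¹) * χ w.1⁻¹ else 0)) := by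
      rw [Finset.mul_sum, Finset.mul_sum]
      refine Finset.sum_congr rfl fun w _ => ?_
      split_ifs
      · ring
      · simp
    rw [e3] at e1
    exact mul_left_cancel₀ hHc e1
  -- step 6
  let LA : Set (V₀ × V₀ × ℤ) := {t | ∃ s ∈ L, t = (a s, a s, ((s.1 : ℕ) : ℤ))}
  have s6 : ∀ χ ∈ X, starRingEnd ℂ (SL B m LA χ χ) =
      ∑ w, (if w ∈ S then χ (w.2 * w.1 * w.2⁻¹) * χ w.1⁻¹ else 0) := by
    intro χ hχ
    have hc := (hXm χ).1 hχ
    unfold SL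
    rw [finsum_mem_def, finsum_eq_sum_of_fintype, map_sum]
    rw [← Equiv.sum_comp ((Equiv.refl G).prodCongr (Equiv.inv G))]
    refine Finset.sum_congr rfl fun w _ => ?_
    show starRingEnd ℂ (Set.indicator _ _ (w.1, w.2⁻¹)) = _
    have hiff : ((w.1, w.2⁻¹) ∈ {w : G × G | ∀ s ∈ LA, w.2 * B.i s.2.1 * w.2⁻¹ =
        B.i s.1 * (w.1 ^ m) ^ s.2.2}) ↔ ∀ s ∈ L, w.2⁻¹ * B.i (a s) * w.2 =
          B.i (a s) * (w.1 ^ m) ^ (s.1 : ℕ) := by
      constructor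
      · intro h s hs
        have h1 := h (a s, a s, ((s.1 : ℕ) : ℤ)) ⟨s, hs, rfl⟩
        have h2 : w.2⁻¹ * B.i (a s) * w.2⁻¹⁻¹ = B.i (a s) * (w.1 ^ m) ^ ((s.1 : ℕ) : ℤ) := h1
        rwa [inv_inv, zpow_natCast] at h2
      · rintro h _ ⟨s, hs, rfl⟩
        show w.2⁻¹ * B.i (a s) * w.2⁻¹⁻¹ = B.i (a s) * (w.1 ^ m) ^ ((s.1 : ℕ) : ℤ)
        rw [inv_inv, zpow_natCast]
        exact h s hs
    rw [Set.indicator_apply]
    by_cases h1 : w ∈ S
    · have h2 := hiff.2 fun s hs => (h1 s hs).2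
      rw [if_pos h2, if_pos h1, map_mul, ch_star hc, ch_star hc, mul_comm]
      congr 2
      show (w.2⁻¹⁻¹ * w.1⁻¹ * w.2⁻¹)⁻¹ = w.2 * w.1 * w.2⁻¹
      group
    · rw [if_neg h1]
      by_cases h2 : (w.1, w.2⁻¹) ∈ {w : G × G | ∀ s ∈ LA, w.2 * B.i s.2.1 * w.2⁻¹ =
        B.i s.1 * (w.1 ^ m) ^ s.2.2}
      · rw [if_pos h2]
        have h3 : w.1 ∉ B.C A := by
          intro h4
          exact h1 fun s hs => ⟨(hHmem _).1 h4 s hs, hiff.1 h2 s hs⟩
        show starRingEnd ℂ (χ w.1 * _) = 0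
        rw [hc.1 _ h3, zero_mul, map_zero]
      · rw [if_neg h2, map_zero]
  -- step 7
  have hp1 : p1 LA = A := by
    rw [hAcl]
    unfold p1
    congr 1
    ext p
    constructor
    · rintro ⟨_, ⟨s, hs, rfl⟩, rfl⟩
      exact ⟨s, hs, rfl⟩
    · rintro ⟨s, hs, rfl⟩
      exact ⟨_, ⟨s, hs, rfl⟩, rfl⟩
  have hp2 : p2 LA = A := by
    rw [hAcl]
    unfold p2
    congr 1
    ext p
    constructor
    · rintro ⟨_, ⟨s, hs, rfl⟩, rfl⟩
      exact ⟨s, hs, rfl⟩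
    · rintro ⟨s, hs, rfl⟩
      exact ⟨_, ⟨s, hs, rfl⟩, rfl⟩
  have : Finite (MulAut V₀) :=
    Finite.of_injective (fun f : MulAut V₀ => (f : V₀ → V₀)) DFunLike.coe_injective
  have iA : Fintype (MulAut V₀) := Fintype.ofFinite _
  let T : Set (MulAut V₀ × V₀) := {w | w.1 ∈ E₀ ∧ ∀ s ∈ L, w.1 (a s * w.2 ^ (s.1 : ℕ)) = a s}
  have s7 : ∀ χ ∈ X, starRingEnd ℂ (SL B m LA χ χ) =
      (Fintype.card (B.C A) : ℂ) * Fintype.card (B.C A) / ((ℓ : ℕ) : ℂ) ^ 2 *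
        ∑ w, (if w ∈ T then lam B A χ (w.2⁻¹ * w.1 w.2) else 0) := by
    intro χ hχ
    have hc := (hXm χ).1 hχ
    have h1 := hS ℓ M hM hℓ V₀ G E₀ hF B hB n m hPE LA (by rw [hp1]; exact hA)
      (by rw [hp2]; exact hA) χ (by rw [hp1]; exact hc) χ (by rw [hp2]; exact hc)
    rw [hp1, hp2, hNc] at h1
    have h2 : ((B.S A : ℤ) : ℂ) * ((B.S A : ℤ) : ℂ) = 1 := by
      rcases hB.sg A hA with h | h
      · rw [h]; norm_num
      · rw [h]; norm_num
    rw [h2, mul_one] at h1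
    rw [h1, map_mul, map_div₀, map_mul, map_pow]
    simp only [Complex.conj_natCast]
    congr 1
    rw [finsum_mem_def, finsum_eq_sum_of_fintype, map_sum]
    refine Finset.sum_congr rfl fun w _ => ?_
    rw [Set.indicator_apply]
    have hiff : (w ∈ {w : MulAut V₀ × V₀ | w.1 ∈ E₀ ∧ ∀ s ∈ LA,
        w.1 (s.1 * w.2 ^ s.2.2) = s.2.1}) ↔ w ∈ T := by
      constructor
      · rintro ⟨g1, g2⟩
        refine ⟨g1, fun s hs => ?_⟩
        have g3 := g2 (a s, a s, ((s.1 : ℕ) : ℤ)) ⟨s, hs, rfl⟩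
        have g4 : w.1 (a s * w.2 ^ ((s.1 : ℕ) : ℤ)) = a s := g3
        rwa [zpow_natCast] at g4
      · rintro ⟨g1, g2⟩
        refine ⟨g1, ?_⟩
        rintro _ ⟨s, hs, rfl⟩
        show w.1 (a s * w.2 ^ ((s.1 : ℕ) : ℤ)) = a s
        rw [zpow_natCast]
        exact g2 s hs
    simp only [hiff]
    split_ifs
    · rw [map_mul, Complex.conj_conj, lin_conj (hlam χ hχ), ← (hlam χ hχ).2]
    · rw [map_zero]
  -- step 8
  have s8 : HK B m κ L = u * ∑ w, (if w ∈ T ∧ κ * (w.2⁻¹ * w.1 w.2) = 1 then (1 : ℂ) else 0) := by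
    have e1 : ∑ w, (if w ∈ S then fc B A κ (kap w.1 w.2) else 0) =
        ((B.D A : ℕ) : ℂ) / Fintype.card (B.C A) * u *
          ∑ χ ∈ X, lam B A χ κ * ∑ w, (if w ∈ S then χ (kap w.1 w.2)⁻¹ else 0) := by
      have e2 : ∀ w : G × G, (if w ∈ S then fc B A κ (kap w.1 w.2) else 0) =
          ((B.D A : ℕ) : ℂ) / Fintype.card (B.C A) * u *
            ∑ χ ∈ X, lam B A χ κ * (if w ∈ S then χ (kap w.1 w.2)⁻¹ else 0) := by
        intro w
        split_ifs with hw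
        · exact s4 _ (hSk w hw)
        · simp
      simp only [e2]
      rw [← Finset.mul_sum, Finset.sum_comm]
      congr 1
      refine Finset.sum_congr rfl fun χ _ => ?_
      rw [Finset.mul_sum]
    have e3 : ∑ χ ∈ X, lam B A χ κ * ∑ w, (if w ∈ S then χ (kap w.1 w.2)⁻¹ else 0) =
        (((B.D A : ℕ) : ℂ))⁻¹ * ((Fintype.card (B.C A) : ℂ) * Fintype.card (B.C A) /
          ((ℓ : ℕ) : ℂ) ^ 2) * ∑ w, (if w ∈ T then
            ∑ χ ∈ X, lam B A χ (κ * (w.2⁻¹ * w.1 w.2)) else 0) := by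
      have e4 : ∀ χ ∈ X, lam B A χ κ * ∑ w, (if w ∈ S then χ (kap w.1 w.2)⁻¹ else 0) =
          (((B.D A : ℕ) : ℂ))⁻¹ * ((Fintype.card (B.C A) : ℂ) * Fintype.card (B.C A) /
          ((ℓ : ℕ) : ℂ) ^ 2) * ∑ w, (if w ∈ T then
            lam B A χ (κ * (w.2⁻¹ * w.1 w.2)) else 0) := by
        intro χ hχ
        rw [s5 χ hχ, ← s6 χ hχ, s7 χ hχ]
        have e5 : ∑ w, (if w ∈ T then lam B A χ (κ * (w.2⁻¹ * w.1 w.2)) else 0) =
            lam B A χ κ * ∑ w, (if w ∈ T then lam B A χ (w.2⁻¹ * w.1 w.2) else 0) := by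
          rw [Finset.mul_sum]
          refine Finset.sum_congr rfl fun w _ => ?_
          split_ifs
          · rw [(hlam χ hχ).2]
          · rw [mul_zero]
        rw [e5]
        ring
      rw [Finset.sum_congr rfl e4, ← Finset.mul_sum, Finset.sum_comm]
      congr 1
      refine Finset.sum_congr rfl fun w _ => ?_
      split_ifs
      · rfl
      · simp
    have e6 : ∑ w, (if w ∈ T then ∑ χ ∈ X, lam B A χ (κ * (w.2⁻¹ * w.1 w.2)) else 0) =
        ((ℓ : ℕ) : ℂ) ^ 2 *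
          ∑ w, (if w ∈ T ∧ κ * (w.2⁻¹ * w.1 w.2) = 1 then (1 : ℂ) else 0) := by
      rw [Finset.mul_sum]
      refine Finset.sum_congr rfl fun w _ => ?_
      rw [horth]
      by_cases h1 : w ∈ T
      · by_cases h2 : κ * (w.2⁻¹ * w.1 w.2) = 1
        · rw [if_pos h1, if_pos h2, if_pos ⟨h1, h2⟩, mul_one]
        · rw [if_pos h1, if_neg h2, if_neg (fun h => h2 h.2), mul_zero]
      · rw [if_neg h1, if_neg (fun h => h1 h.1), mul_zero]
    rw [s1, e1, e3, e6]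
    field_simp
  have s9 : ∑ w, (if w ∈ T ∧ κ * (w.2⁻¹ * w.1 w.2) = 1 then (1 : ℂ) else 0) =
      ((N12 E₀ κ L : ℕ) : ℂ) := by
    rw [← ncard_sum (fun w : MulAut V₀ × V₀ => w ∈ T ∧ κ * (w.2⁻¹ * w.1 w.2) = 1)]
    unfold N12
    congr 1
    refine Set.ncard_congr (fun w hw => ((⟨w.1, hw.1.1⟩ : E₀), w.2⁻¹)) ?_ ?_ ?_
    · rintro w ⟨⟨h1, h2⟩, h3⟩
      constructor
      · show w.1 w.2⁻¹ = κ * w.2⁻¹
        have h4 : κ * w.2⁻¹ = (w.1 w.2)⁻¹ := by
          rw [← mul_assoc] at h3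
          exact eq_inv_of_mul_eq_one_left h3
        rw [h4, map_inv]
      · intro s hs
        show w.1 (κ ^ (s.2.1 : ℕ) * s.2.2.1 * (w.2⁻¹ ^ (s.1 : ℕ))⁻¹) = κ ^ (s.2.1 : ℕ) * s.2.2.1
        rw [inv_pow, inv_inv]
        exact h2 s hs
    · rintro ⟨w1, w2⟩ ⟨v1, v2⟩ hw hv h
      have h1 := congrArg Prod.fst h
      have h2 := congrArg Prod.snd h
      have h3 : w1 = v1 := congrArg Subtype.val h1
      have h4 : w2 = v2 := inv_injective h2
      rw [h3, h4]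
    · rintro ⟨⟨τ, hτ⟩, v⟩ ⟨h1, h2⟩
      refine ⟨(τ, v⁻¹), ⟨⟨hτ, fun s hs => ?_⟩, ?_⟩, ?_⟩
      · have h3 := h2 s hs
        have h4 : τ (κ ^ (s.2.1 : ℕ) * s.2.2.1 * (v ^ (s.1 : ℕ))⁻¹) =
          κ ^ (s.2.1 : ℕ) * s.2.2.1 := h3
        show τ (a s * v⁻¹ ^ (s.1 : ℕ)) = a s
        rw [inv_pow]
        exact h4
      · have h3 : τ v = κ * v := h1
        show κ * (v⁻¹⁻¹ * τ v⁻¹) = 1
        rw [map_inv, h3, inv_inv, mul_inv_rev]
        rw [← mul_assoc v, mul_inv_cancel, one_mul, mul_inv_cancel]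
      · refine Prod.ext rfl ?_
        show v⁻¹⁻¹ = v
        rw [inv_inv]
  rw [s8, s9, hu]
  push_cast
  ring

end Pool.Agent.PP.SO.H10W
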